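import Pool.Agent.U780.RF.Prog
import Pool.Agent.H622R3.SM.T_COMP
import Pool.Agent.H622R3.SM.T_PM
import Pool.Agent.H671R2.PolyAuto

/-!
# The controller
-/

set_option autoImplicit false

namespace Pool.Agent.U780.RF

open Pool.Agent.H558R2 Pool.Agent.H622R3.SM Pool.Agent.NPC
open Pool.Agent.H622R3.SM.TPM (pInstr)
open Pool.Agent.U17.PN (pre)

variable {α : Type} [TEnc α]

attribute [local fun_prop] pInstr

theorem poly_range {U : α → List Unit} (hU : Poly U) :
    Poly (fun a => List.range (U a).length) := (UPoly.length hU).range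

theorem poly_range1 {U : α → List Unit} (hU : Poly U) :
    Poly (fun a => List.range ((U a).length + 1)) := ((UPoly.length hU).add (UPoly.const 1)).range

theorem poly_cols {U V : α → List Unit} (hU : Poly U) (hV : Poly V) :
    Poly (fun a => colsL (U a).length (V a).length) := by
  unfold colsL
  have h1 := poly_range hU
  have h2 := poly_range1 hV
  refine Poly.append (NPC.Poly.map (R671.poly_product (NPC.Poly.const _) h2) ?_)
    (Poly.append (NPC.Poly.map h1 ?_)
      (NPC.Poly.map (R671.poly_product (NPC.Poly.const _) (R671.poly_product h1 h1)) ?_))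
  all_goals fun_prop

theorem poly_idx {U V : α → List Unit} (hU : Poly U) (hV : Poly V) :
    Poly (fun a => idxL (U a).length (V a).length) := by
  unfold idxL
  exact R671.poly_product (NPC.Poly.const _) (poly_cols hU hV)

theorem poly_rE {i j : α → ℕ} (hi : Poly i) (hj : Poly j) : Poly (fun a => rE (i a) (j a)) := by
  unfold rE; fun_prop
theorem poly_rG {i j k : α → ℕ} (hi : Poly i) (hj : Poly j) (hk : Poly k) :
    Poly (fun a => rG (i a) (j a) (k a)) := by unfold rG; fun_prop
theorem poly_rS {i j : α → ℕ} (hi : Poly i) (hj : Poly j) : Poly (fun a => rS (i a) (j a)) := by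
  unfold rS; fun_prop
theorem poly_rK {i : α → ℕ} {c : α → Cod} (hi : Poly i) (hc : Poly c) :
    Poly (fun a => rK (i a) (c a)) := by unfold rK; fun_prop
theorem poly_rZ {i : α → ℕ} {c : α → Cod} (hi : Poly i) (hc : Poly c) :
    Poly (fun a => rZ (i a) (c a)) := by unfold rZ; fun_prop
theorem poly_rN {i : α → ℕ} (hi : Poly i) : Poly (fun a => rN (i a)) := by unfold rN; fun_prop
theorem poly_rQ {i : α → ℕ} {c : α → Cod} (hi : Poly i) (hc : Poly c) :
    Poly (fun a => rQ (i a) (c a)) := by unfold rQ; fun_prop
theorem poly_rT {i : α → ℕ} {c d : α → Cod} (hi : Poly i) (hc : Poly c) (hd : Poly d) :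
    Poly (fun a => rT (i a) (c a) (d a)) := by unfold rT; fun_prop
theorem poly_rU {c d : α → Cod} (hc : Poly c) (hd : Poly d) :
    Poly (fun a => rU (c a) (d a)) := by unfold rU; fun_prop

attribute [local fun_prop] poly_rE poly_rG poly_rS poly_rK poly_rZ poly_rN poly_rQ poly_rT poly_rU

theorem poly_iE {i j : α → ℕ} (hi : Poly i) (hj : Poly j) : Poly (fun a => iE (i a) (j a)) := by
  unfold iE; fun_prop

theorem poly_ksrc {m i : α → ℕ} {c : α → Cod} (hm : Poly m) (hi : Poly i) (hc : Poly c) :
    Poly (fun a => ksrc (m a) (i a) (c a)) := by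
  unfold ksrc; fun_prop

theorem poly_kneg {m i : α → ℕ} {c : α → Cod} (hm : Poly m) (hi : Poly i) (hc : Poly c) :
    Poly (fun a => kneg (m a) (i a) (c a)) := by
  unfold kneg; fun_prop

attribute [local fun_prop] poly_ksrc poly_kneg poly_iE

theorem poly_iK {m i : α → ℕ} {c : α → Cod} (hm : Poly m) (hi : Poly i) (hc : Poly c) :
    Poly (fun a => iK (m a) (i a) (c a)) := by
  unfold iK; fun_prop

attribute [local fun_prop] poly_iK

theorem poly_par1 {U V : α → List Unit} (hU : Poly U) (hV : Poly V) :
    Poly (fun a => par1 (U a).length (V a).length) := by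
  unfold par1
  have h1 := poly_range hU
  have h2 := poly_range1 hV
  refine Poly.append (NPC.Poly.map (R671.poly_product h1 h2) ?_) (NPC.Poly.const _)
  fun_prop

theorem poly_par2 {U V : α → List Unit} (hU : Poly U) (hV : Poly V) :
    Poly (fun a => par2 (U a).length (V a).length) := by
  unfold par2
  have h1 := poly_range hU
  have h2 := poly_range1 hV
  refine Poly.append (NPC.Poly.map (R671.poly_product h1 (R671.poly_product h1 h2)) ?_)
    (NPC.Poly.const _)
  fun_prop

theorem poly_acc3 {U V : α → List Unit} (hU : Poly U) (hV : Poly V) :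
    Poly (fun a => acc3 (U a).length (V a).length) := by
  unfold acc3
  have h1 := poly_range hU
  refine NPC.Poly.map (R671.poly_product h1 h1) ?_
  refine Poly.pair (by fun_prop) (NPC.Poly.map ?_ ?_)
  · exact poly_range1 (U := fun x : α × (ℕ × ℕ) => V x.1) (by fun_prop)
  · fun_prop

theorem poly_par4 {U V : α → List Unit} (hU : Poly U) (hV : Poly V) :
    Poly (fun a => par4 (U a).length (V a).length) := by
  unfold par4
  have h1 := poly_range1 hU
  have h2 := poly_cols hU hV
  refine NPC.Poly.map (R671.poly_product h1 h2) ?_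
  fun_prop

theorem poly_par5 {U V : α → List Unit} (hU : Poly U) (hV : Poly V) :
    Poly (fun a => par5 (U a).length (V a).length) := by
  unfold par5
  have h1 := poly_range1 hU
  have h2 := poly_cols hU hV
  refine NPC.Poly.map (R671.poly_product h1 h2) ?_
  fun_prop

theorem poly_acc6 {U V : α → List Unit} (hU : Poly U) (hV : Poly V) :
    Poly (fun a => acc6 (U a).length (V a).length) := by
  unfold acc6
  have h1 := poly_range1 hU
  refine NPC.Poly.map h1 ?_
  refine Poly.pair (by fun_prop) (NPC.Poly.map ?_ ?_)
  · exact poly_cols (U := fun x : α × ℕ => U x.1) (V := fun x : α × ℕ => V x.1)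
      (by fun_prop) (by fun_prop)
  · fun_prop

theorem poly_par7 {U V : α → List Unit} (hU : Poly U) (hV : Poly V) :
    Poly (fun a => par7 (U a).length (V a).length) := by
  unfold par7
  have h1 := poly_range1 hU
  have h2 := poly_cols hU hV
  refine NPC.Poly.map (R671.poly_product h1 h2) ?_
  fun_prop

theorem poly_par8 {U V : α → List Unit} (hU : Poly U) (hV : Poly V) :
    Poly (fun a => par8 (U a).length (V a).length) := by
  unfold par8
  have h1 := poly_range1 hU
  have h2 := poly_cols hU hV
  refine NPC.Poly.map (R671.poly_product h1 (R671.poly_product h2 h2)) ?_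
  fun_prop

theorem poly_acc9 {U V : α → List Unit} (hU : Poly U) (hV : Poly V) :
    Poly (fun a => acc9 (U a).length (V a).length) := by
  unfold acc9
  have h2 := poly_cols hU hV
  refine NPC.Poly.map (R671.poly_product h2 h2) ?_
  refine Poly.pair (by fun_prop) (NPC.Poly.map ?_ ?_)
  · exact poly_range1 (U := fun x : α × (Cod × Cod) => U x.1) (by fun_prop)
  · fun_prop

theorem poly_accProg {L : α → List (Reg × List Reg)} (hL : Poly L) :
    Poly (fun a => accProg (L a)) := by
  unfold accProg
  fun_prop

theorem poly_progs {U V : α → List Unit} (hU : Poly U) (hV : Poly V) :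
    Poly (fun a => progs (layers (U a).length (V a).length)) := by
  have e : ∀ m n, progs (layers m n) = par1 m n ++ (par2 m n ++ (accProg (acc3 m n) ++
      (par4 m n ++ (par5 m n ++ (accProg (acc6 m n) ++ (par7 m n ++ (par8 m n ++
        accProg (acc9 m n)))))))) := by
    intro m n
    simp [progs, layers, Lay.prog, accProg]
  simp only [e]
  exact Poly.append (poly_par1 hU hV) (Poly.append (poly_par2 hU hV)
    (Poly.append (poly_accProg (poly_acc3 hU hV)) (Poly.append (poly_par4 hU hV)
      (Poly.append (poly_par5 hU hV) (Poly.append (poly_accProg (poly_acc6 hU hV))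
        (Poly.append (poly_par7 hU hV) (Poly.append (poly_par8 hU hV)
          (poly_accProg (poly_acc9 hU hV)))))))))

theorem poly_outL {U V : α → List Unit} (hU : Poly U) (hV : Poly V) :
    Poly (fun a => outL (U a).length (V a).length) := by
  unfold outL iM iR
  have h1 := Poly.zipIdx (poly_idx hU hV)
  refine Poly.append (NPC.Poly.map (R671.poly_product h1 h1) ?_) (NPC.Poly.map h1 ?_)
  · fun_prop
  · fun_prop

theorem poly_dst {f : α → Instr} (hf : Poly f) : Poly (fun a => (f a).dst) := by
  have h1 : Poly (fun a => (f a).code) :=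
    Pool.Agent.NPC.Poly.of_toT (Pool.Agent.NPC.Poly.toT' hf)
  exact (Poly.fst (Poly.snd h1)).congr fun a => rfl

theorem poly_prog {U V : α → List Unit} (hU : Poly U) (hV : Poly V) :
    Poly (fun a => prog (U a).length (V a).length) := by
  unfold prog clean
  have h1 := poly_progs hU hV
  refine Poly.append h1 (Poly.append (poly_outL hU hV) (NPC.Poly.map (NPC.Poly.map h1 ?_) ?_))
  · exact poly_dst (f := fun x : α × Instr => x.2) (by fun_prop)
  · fun_prop

/-- the reduction applied to an algorithm -/
def redAlg (α : Alg) : Alg := fun m n h =>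
  if h = [] then (prog m n ++ (α (idxL m n).length (idxL m n).length []).1,
    (α (idxL m n).length (idxL m n).length []).2)
  else α (idxL m n).length (idxL m n).length h

theorem redAlg_eq (α : Alg) (m n : ℕ) :
    redAlg α m n = pre (prog m n) (α (idxL m n).length (idxL m n).length) := rfl

theorem redAlg_free {α : Alg} (h : OracleFree α) : OracleFree (redAlg α) := by
  intro m n h' w
  unfold redAlg
  split_ifs
  · exact h _ _ _ _
  · exact h _ _ _ _

theorem redAlg_control {β : Alg} (h : PolyControl β) : PolyControl (redAlg β) := by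
  have h1 : Poly (fun p : HistIn => β p.1.1.length p.1.2.length p.2) := t_COMP2 _ _ _ h
  refine t_COMP _ _ _ ?_
  have hU : Poly (fun p : HistIn => p.1.1) := by fun_prop
  have hV : Poly (fun p : HistIn => p.1.2) := by fun_prop
  have hr : Poly (fun p : HistIn => (idxL p.1.1.length p.1.2.length).map (fun _ => ())) :=
    NPC.Poly.map (poly_idx hU hV) (NPC.Poly.const _)
  have h2 : Poly (fun p : HistIn => β (idxL p.1.1.length p.1.2.length).length
      (idxL p.1.1.length p.1.2.length).length p.2) := by
    have h3 : Poly (fun p : HistIn => ((((idxL p.1.1.length p.1.2.length).map (fun _ => ()),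
      (idxL p.1.1.length p.1.2.length).map (fun _ => ())), p.2) : HistIn)) :=
      Poly.pair (Poly.pair hr hr) (by fun_prop)
    refine (h1.comp h3).congr fun p => ?_
    simp only [List.length_map]
  have h2' : Poly (fun p : HistIn => β (idxL p.1.1.length p.1.2.length).length
      (idxL p.1.1.length p.1.2.length).length []) := by
    have h3 : Poly (fun p : HistIn => ((((idxL p.1.1.length p.1.2.length).map (fun _ => ()),
      (idxL p.1.1.length p.1.2.length).map (fun _ => ())), []) : HistIn)) :=
      Poly.pair (Poly.pair hr hr) (NPC.Poly.const _)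
    refine (h1.comp h3).congr fun p => ?_
    simp only [List.length_map]
  have h4 : Poly (fun p : HistIn => decide (p.2 = [])) := by fun_prop
  unfold redAlg
  refine Poly.ite h4 (Poly.pair (Poly.append (poly_prog hU hV) (Poly.fst h2')) (Poly.snd h2')) h2

end Pool.Agent.U780.RF
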