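import Pool.Agent.U780.RF.Main

/-!
# Duality, and tight frames
-/

set_option autoImplicit false

namespace Pool.Agent.U780.RF

open Pool.Agent.H558R2 Pool.Agent.H622R3.SM Finset
open scoped RealInnerProductSpace

/-! ### Duality -/

section dual

variable {N : ℕ} {P : Matrix (Fin N) (Fin N) ℝ}

theorem HalfProj.compl (hP : HalfProj P) : HalfProj (1 - P) where
  symm := by rw [Matrix.transpose_sub, Matrix.transpose_one, hP.symm]
  idem := by
    have h := hP.idem
    rw [Matrix.sub_mul, Matrix.mul_sub, Matrix.mul_sub, h]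
    simp
  diag := fun i => by
    rw [Matrix.sub_apply, Matrix.one_apply_eq, hP.diag]
    norm_num

theorem nonneg_of_single {k : Fin N} {w : Fin N → ℝ} (h : Pi.single k 1 ≤ w) :
    (∀ i, 0 ≤ w i) ∧ 1 ≤ w k := by
  refine ⟨fun i => le_trans ?_ (h i), by simpa using h k⟩
  by_cases hi : i = k
  · subst hi; simp
  · rw [Pi.single_eq_of_ne hi]

theorem single_of_nonneg {k : Fin N} {w : Fin N → ℝ} (h1 : ∀ i, 0 ≤ w i) (h2 : 1 ≤ w k) :
    Pi.single k 1 ≤ w := by
  intro i
  by_cases hi : i = k
  · subst hi; simpa using h2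
  · rw [Pi.single_eq_of_ne hi]; exact h1 i

/-- Exactly one of a subspace and its orthogonal complement contains a nonnegative vector the
`k`-th coordinate of which is positive. -/
theorem hits_compl (hs : P.transpose = P) (hi : P * P = P) (k : Fin N) :
    Hits (1 - P) k ↔ ¬ Hits P k := by
  constructor
  · rintro ⟨u, hu⟩ ⟨u', hu'⟩
    obtain ⟨a1, a2⟩ := nonneg_of_single hu
    obtain ⟨b1, b2⟩ := nonneg_of_single hu'
    have h1 : dotProduct ((1 - P).mulVec u) (P.mulVec u') = 0 := by
      rw [Matrix.dotProduct_mulVec, ← Matrix.mulVec_transpose, hs, Matrix.mulVec_mulVec,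
        Matrix.mul_sub, Matrix.mul_one, hi, sub_self, Matrix.zero_mulVec, zero_dotProduct]
    have h2 : (1 : ℝ) ≤ dotProduct ((1 - P).mulVec u) (P.mulVec u') := by
      unfold dotProduct
      calc (1 : ℝ) ≤ ((1 - P).mulVec u) k * (P.mulVec u') k := by nlinarith
        _ ≤ _ := Finset.single_le_sum (f := fun i => ((1 - P).mulVec u) i * (P.mulVec u') i)
          (fun i _ => mul_nonneg (a1 i) (b1 i)) (Finset.mem_univ k)
    linarith
  · intro h
    have h' : ¬ Feas (m := N) (n := N) ((P : Fin N → Fin N → ℝ), Pi.single k 1) := by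
      rintro ⟨x, hx⟩
      exact h ⟨x, fun i => hx i⟩
    obtain ⟨y, hy, hyP, hyk⟩ := (t_FARKAS N N _).1 h'
    have h3 : ∑ i, y i * (Pi.single k 1 : Fin N → ℝ) i = y k := by
      rw [Finset.sum_eq_single k]
      · simp
      · intro i _ hi
        rw [Pi.single_eq_of_ne hi, mul_zero]
      · intro h
        exact absurd (Finset.mem_univ k) h
    have hyk' : 0 < y k := by
      rw [← h3]
      exact hyk
    have hPy : P.mulVec y = 0 := by
      rw [← hs, Matrix.mulVec_transpose]
      funext j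
      exact hyP j
    refine ⟨fun i => y i / y k, ?_⟩
    have h4 : (1 - P).mulVec (fun i => y i / y k) = fun i => y i / y k := by
      have h5 : (fun i => y i / y k) = (1 / y k) • y := by
        funext i
        rw [Pi.smul_apply, smul_eq_mul]
        ring
      rw [h5, Matrix.mulVec_smul, Matrix.sub_mulVec, hPy, Matrix.one_mulVec, sub_zero]
    rw [h4]
    refine single_of_nonneg (fun i => div_nonneg (hy i) hyk'.le) ?_
    rw [div_self hyk'.ne']

end dual

/-! ### Tight frames -/

/-- `2 d` unit vectors of `ℝ ^ d` which form a tight frame: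
`∑ i, ⟪v i, x⟫ v i = 2 x` for all `x`. -/
structure TightFrame (d : ℕ) (v : Fin (2 * d) → EuclideanSpace ℝ (Fin d)) : Prop where
  /-- unit vectors -/
  norm : ∀ i, ‖v i‖ = 1
  /-- the frame is tight -/
  tight : ∀ x, ∑ i, ⟪v i, x⟫ • v i = (2 : ℝ) • x

/-- half of the Gram matrix -/
noncomputable def halfGram {d : ℕ} (v : Fin (2 * d) → EuclideanSpace ℝ (Fin d)) :
    Matrix (Fin (2 * d)) (Fin (2 * d)) ℝ := fun i j => ⟪v i, v j⟫ / 2

theorem TightFrame.half {d : ℕ} {v : Fin (2 * d) → EuclideanSpace ℝ (Fin d)}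
    (h : TightFrame d v) : HalfProj (halfGram v) where
  symm := by
    ext i j
    rw [Matrix.transpose_apply]
    unfold halfGram
    rw [real_inner_comm]
  idem := by
    ext i j
    rw [Matrix.mul_apply]
    unfold halfGram
    have h1 := congrArg (fun y => ⟪v i, y⟫) (h.tight (v j))
    simp only [inner_sum, inner_smul_right] at h1
    have h2 : ∑ k, ⟪v i, v k⟫ / 2 * (⟪v k, v j⟫ / 2) =
        (∑ k, ⟪v k, v j⟫ * ⟪v i, v k⟫) / 4 := by
      rw [Finset.sum_div]
      exact Finset.sum_congr rfl fun k _ => by ring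
    rw [h2, h1]
    ring
  diag := fun i => by
    unfold halfGram
    rw [real_inner_self_eq_norm_sq, h.norm]
    norm_num

theorem TightFrame.hits {d : ℕ} {v : Fin (2 * d) → EuclideanSpace ℝ (Fin d)}
    (h : TightFrame d v) (k : Fin (2 * d)) :
    Hits (halfGram v) k ↔ ∃ x, 0 < ⟪v k, x⟫ ∧ ∀ i, 0 ≤ ⟪v i, x⟫ := by
  have key : ∀ (u : Fin (2 * d) → ℝ) (i : Fin (2 * d)),
      (halfGram v).mulVec u i = ⟪v i, ∑ j, (u j / 2) • v j⟫ := by
    intro u i
    unfold Matrix.mulVec dotProduct halfGram
    rw [inner_sum]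
    refine Finset.sum_congr rfl fun j _ => ?_
    rw [inner_smul_right]
    ring
  constructor
  · rintro ⟨u, hu⟩
    obtain ⟨a1, a2⟩ := nonneg_of_single hu
    refine ⟨∑ j, (u j / 2) • v j, ?_, fun i => ?_⟩
    · rw [← key u k]
      linarith
    · rw [← key u i]
      exact a1 i
  · rintro ⟨x, hx, hx'⟩
    refine ⟨fun j => ⟪v j, x⟫ / ⟪v k, x⟫, ?_⟩
    have h1 : ∀ i, (halfGram v).mulVec (fun j => ⟪v j, x⟫ / ⟪v k, x⟫) i =
        ⟪v i, x⟫ / ⟪v k, x⟫ := by
      intro i
      rw [key]
      have h2 : ∑ j, (⟪v j, x⟫ / ⟪v k, x⟫ / 2) • v j = (1 / (2 * ⟪v k, x⟫)) • ((2 : ℝ) • x) := by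
        rw [← h.tight x, Finset.smul_sum]
        refine Finset.sum_congr rfl fun j _ => ?_
        rw [smul_smul]
        congr 1
        field_simp
      rw [h2, smul_smul, inner_smul_right]
      field_simp
    refine single_of_nonneg (fun i => ?_) ?_
    · rw [h1]
      exact div_nonneg (hx' i) hx.le
    · rw [h1, div_self hx.ne']

/-- Every projection matrix with the diagonal entries `1 / 2` is half of the Gram matrix of a
tight frame of unit vectors. -/
theorem HalfProj.frame {N : ℕ} {P : Matrix (Fin N) (Fin N) ℝ} (hP : HalfProj P) :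
    ∃ (d : ℕ) (h : N = 2 * d) (v : Fin (2 * d) → EuclideanSpace ℝ (Fin d)), TightFrame d v ∧
      ∀ i j, P i j = halfGram v (Fin.cast h i) (Fin.cast h j) := by
  set E := EuclideanSpace ℝ (Fin N)
  set T : E →ₗ[ℝ] E := Matrix.toEuclideanLin P with hT
  have hTapp : ∀ (x : E) (i : Fin N), (T x) i = ∑ j, P i j * x j := by
    intro x i
    rw [hT, Matrix.toEuclideanLin_apply]
    rfl
  have hTT : ∀ x : E, T (T x) = T x := by
    intro x
    ext i
    rw [hTapp, hTapp]
    simp only [hTapp]
    have h2 : ∀ j, ∑ k, P i k * P k j = P i j := by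
      intro j
      have := congrFun (congrFun hP.idem i) j
      rwa [Matrix.mul_apply] at this
    calc ∑ j, P i j * ∑ k, P j k * x k = ∑ j, ∑ k, (P i j * P j k) * x k := by
          refine Finset.sum_congr rfl fun j _ => ?_
          rw [Finset.mul_sum]
          exact Finset.sum_congr rfl fun k _ => by ring
      _ = ∑ k, (∑ j, P i j * P j k) * x k := by
          rw [Finset.sum_comm]
          exact Finset.sum_congr rfl fun k _ => by rw [Finset.sum_mul]
      _ = _ := Finset.sum_congr rfl fun k _ => by rw [h2]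
  have hidem : IsIdempotentElem T := LinearMap.ext hTT
  set V := LinearMap.range T with hV
  have htr : (Module.finrank ℝ V : ℝ) = N / 2 := by
    rw [← (LinearMap.IsIdempotentElem.isProj_range T hidem).trace]
    have h1 : LinearMap.trace ℝ E T = P.trace := by
      rw [hT, Matrix.toEuclideanLin_eq_toLin, LinearMap.trace_eq_matrix_trace ℝ
        (PiLp.basisFun 2 ℝ (Fin N)), LinearMap.toMatrix_toLin]
    rw [h1]
    unfold Matrix.trace
    simp only [Matrix.diag_apply, hP.diag]
    simp
    ring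
  have hN : N = 2 * Module.finrank ℝ V := by
    have : (N : ℝ) = ((2 * Module.finrank ℝ V : ℕ) : ℝ) := by
      push_cast
      rw [htr]
      ring
    exact_mod_cast this
  set d := Module.finrank ℝ V with hd
  let bV : OrthonormalBasis (Fin d) ℝ V := stdOrthonormalBasis ℝ V
  let e : Fin N → E := fun i => EuclideanSpace.single i (1 : ℝ)
  let g : Fin N → V := fun i => ⟨T (e i), LinearMap.mem_range_self T _⟩
  have hTe : ∀ i j, (T (e i)) j = P j i := by
    intro i j
    rw [hTapp]
    simp [e]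
  have hinner : ∀ x y : E, ⟪x, y⟫ = ∑ i, x i * y i := by
    intro x y
    rw [PiLp.inner_apply]
    refine Finset.sum_congr rfl fun i _ => ?_
    simp [mul_comm]
  have hsymm : ∀ i j, P i j = P j i := fun i j => by
    have := congrFun (congrFun hP.symm i) j
    rw [Matrix.transpose_apply] at this
    exact this.symm
  have hgg : ∀ i j, ⟪g i, g j⟫ = P i j := by
    intro i j
    have h1 : ⟪g i, g j⟫ = ⟪T (e i), T (e j)⟫ := rfl
    rw [h1, hinner]
    simp only [hTe]
    have := congrFun (congrFun hP.idem i) j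
    rw [Matrix.mul_apply] at this
    rw [← this]
    exact Finset.sum_congr rfl fun k _ => by rw [hsymm k i]
  have hgx : ∀ (y : V) (i : Fin N), ⟪g i, y⟫ = (y : E) i := by
    intro y i
    obtain ⟨y, z, rfl⟩ := y
    have h1 : ⟪g i, (⟨T z, LinearMap.mem_range_self T z⟩ : V)⟫ = ⟪T (e i), T z⟫ := rfl
    have h2 : T z i = ∑ j, P i j * (T z) j := by
      rw [← hTapp, hTT]
    refine h1.trans ?_
    rw [hinner]
    show _ = T z i
    rw [h2]
    exact Finset.sum_congr rfl fun k _ => by rw [hTe, hsymm]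
  have hsum : ∀ y : V, ∑ i, ⟪g i, y⟫ • g i = y := by
    intro y
    simp only [hgx]
    apply Subtype.ext
    rw [AddSubmonoidClass.coe_finsetSum]
    obtain ⟨y, z, rfl⟩ := y
    show ∑ i, (T z i) • T (e i) = T z
    rw [← hTT z]
    have h3 : T z = ∑ i, (T z i) • e i := by
      have h4 := (EuclideanSpace.basisFun (Fin N) ℝ).sum_repr (T z)
      simp only [EuclideanSpace.basisFun_apply, EuclideanSpace.basisFun_repr] at h4
      exact h4.symm
    conv_rhs => rw [h3]
    rw [map_sum]
    simp only [map_smul, hTT]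
  refine ⟨d, hN, fun i => (Real.sqrt 2) • bV.repr (g (Fin.cast hN.symm i)), ⟨?_, ?_⟩, ?_⟩
  · intro i
    have h1 : ‖(Real.sqrt 2) • bV.repr (g (Fin.cast hN.symm i))‖ ^ 2 = 1 := by
      rw [norm_smul, mul_pow, LinearIsometryEquiv.norm_map,
        ← real_inner_self_eq_norm_sq (g (Fin.cast hN.symm i)), hgg, hP.diag, Real.norm_eq_abs, sq_abs, Real.sq_sqrt (by norm_num)]
      norm_num
    have h2 := norm_nonneg ((Real.sqrt 2) • bV.repr (g (Fin.cast hN.symm i)))
    nlinarith [sq_nonneg (‖(Real.sqrt 2) • bV.repr (g (Fin.cast hN.symm i))‖ - 1)]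
  · intro x
    obtain ⟨y, rfl⟩ := bV.repr.surjective x
    have h1 : ∀ i : Fin (2 * d), ⟪(Real.sqrt 2) • bV.repr (g (Fin.cast hN.symm i)), bV.repr y⟫ •
        ((Real.sqrt 2) • bV.repr (g (Fin.cast hN.symm i))) =
        (2 : ℝ) • bV.repr (⟪g (Fin.cast hN.symm i), y⟫ • g (Fin.cast hN.symm i)) := by
      intro i
      rw [inner_smul_left, LinearIsometryEquiv.inner_map_map, smul_smul, map_smul, smul_smul]
      congr 1
      have h3 : Real.sqrt 2 * Real.sqrt 2 = 2 := Real.mul_self_sqrt (by norm_num)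
      simp only [conj_trivial]
      rw [mul_right_comm, h3]
    simp only [h1]
    rw [← Finset.smul_sum, ← map_sum]
    congr 2
    exact (Equiv.sum_comp (finCongr hN.symm) (fun i => ⟪g i, y⟫ • g i)).trans (hsum y)
  · intro i j
    unfold halfGram
    rw [inner_smul_left, inner_smul_right, LinearIsometryEquiv.inner_map_map, hgg]
    have h3 : Real.sqrt 2 * Real.sqrt 2 = 2 := Real.mul_self_sqrt (by norm_num)
    simp only [conj_trivial, Fin.cast_cast, Fin.cast_eq_self]
    have h4 : Real.sqrt 2 * (Real.sqrt 2 * P i j) = 2 * P i j := by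
      rw [← mul_assoc, h3]
    rw [h4]
    ring

end Pool.Agent.U780.RF
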