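import Pool.Agent.U780.RF.Store
import Pool.Agent.U780.RF.Ctl
import Pool.Agent.U17.PN.Main
import Pool.Agent.H622R3.SM.T_FARKAS

/-!
# The reduction
-/

set_option autoImplicit false

namespace Pool.Agent.U780.RF

open Pool.Agent.H558R2 Pool.Agent.H622R3.SM Pool.Agent.U17.PN Finset

/-! ### Definitions -/

/-- `P` is the matrix of an orthogonal projection, and all its diagonal entries are `1 / 2`. -/
structure HalfProj {N : ℕ} (P : Matrix (Fin N) (Fin N) ℝ) : Prop where
  /-- `P` is symmetric -/
  symm : P.transpose = P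
  /-- `P` is idempotent -/
  idem : P * P = P
  /-- the diagonal entries are `1 / 2` -/
  diag : ∀ i, P i i = 1 / 2

/-- The system of linear inequalities `P u ≥ e_k` is solvable, that is, the range of the
projection `P` contains a nonnegative vector the `k`-th coordinate of which is positive. -/
def Hits {N : ℕ} (P : Matrix (Fin N) (Fin N) ℝ) (k : Fin N) : Prop :=
  ∃ u : Fin N → ℝ, Pi.single k 1 ≤ P.mulVec u

/-! ### The matrix computed -/

section

variable {m n : ℕ} (A : Matrix (Fin m) (Fin n) ℝ) (b : Fin m → ℝ)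

theorem idx_pos (m n : ℕ) : 0 < (idxL m n).length := by
  rw [length_idx]; omega

theorem idx_zero (m n : ℕ) : (idxL m n)[0]'(idx_pos m n) = (0, (0, 0, 0)) := by
  have h : (idxL m n).head? = some (0, (0, 0, 0)) := by
    unfold idxL colsL
    simp [List.range_succ_eq_map, List.product_cons]
  rw [List.head?_eq_getElem?] at h
  rw [List.getElem?_eq_getElem (idx_pos m n)] at h
  exact Option.some.inj h

theorem toFinset_idx (m n : ℕ) :
    (idxL m n).toFinset = range 2 ×ˢ (colsL m n).toFinset := by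
  ext z
  unfold idxL
  rw [List.mem_toFinset, List.mem_product, Finset.mem_product, List.mem_range, Finset.mem_range,
    List.mem_toFinset]

theorem sum_fin_idx (f : ℕ × Cod → ℝ) : ∑ q : Fin (idxL m n).length, f (idxL m n)[q] =
    ∑ z ∈ range 2 ×ˢ (colsL m n).toFinset, f z := by
  rw [← toFinset_idx, sum_toFinset _ (nodup_idx m n)]
  exact Fin.sum_univ_fun_getElem _ _

theorem mem_idx' (p : Fin (idxL m n).length) :
    (idxL m n)[p] ∈ range 2 ×ˢ (colsL m n).toFinset := by
  rw [← toFinset_idx, List.mem_toFinset]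
  exact List.getElem_mem _

theorem mM_half (hm : 1 ≤ m) : HalfProj (mM A b) where
  symm := by
    ext p q
    exact MM_symm _ _
  idem := by
    ext p q
    rw [Matrix.mul_apply]
    unfold mM
    rw [sum_fin_idx (fun y => MM (range (m + 1)) (colsL m n).toFinset (Kf m n (Ext A b))
      (idxL m n)[p] y * MM (range (m + 1)) (colsL m n).toFinset (Kf m n (Ext A b)) y
      (idxL m n)[q])]
    exact MM_idem (orthK hm) _ _ (mem_idx' p) (mem_idx' q)
  diag := fun p => MM_diag _

theorem mR_eq : mR m n = Pi.single ⟨0, idx_pos m n⟩ 1 := by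
  funext p
  unfold mR
  rw [Pi.single_apply]
  simp only [Fin.ext_iff]

theorem feas_iff : (∃ x : Fin n → ℝ, b ≤ A.mulVec x) ↔
    ∃ x : ℕ → ℝ, ∀ i < m, start A b [1, i] ≤ ∑ j ∈ range n, start A b [0, i, j] * x j := by
  have e0 : ∀ (i : Fin m) (j : Fin n), start A b [0, (i : ℕ), (j : ℕ)] = A i j := by
    intro i j
    show (if h : (i : ℕ) < m ∧ (j : ℕ) < n then A ⟨i, h.1⟩ ⟨j, h.2⟩ else 0) = _
    rw [dif_pos ⟨i.2, j.2⟩]
  have e1 : ∀ i : Fin m, start A b [1, (i : ℕ)] = b i := by
    intro i
    show (if h : (i : ℕ) < m then b ⟨i, h⟩ else 0) = _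
    rw [dif_pos i.2]
  constructor
  · rintro ⟨x, hx⟩
    refine ⟨fun j => if h : j < n then x ⟨j, h⟩ else 0, fun i hi => ?_⟩
    have h1 := hx ⟨i, hi⟩
    rw [e1 ⟨i, hi⟩, Finset.sum_range]
    refine h1.trans (le_of_eq ?_)
    unfold Matrix.mulVec dotProduct
    refine Finset.sum_congr rfl fun j _ => ?_
    show A ⟨i, hi⟩ j * x j = start A b [0, i, (j : ℕ)] * (if h : (j : ℕ) < n then x ⟨j, h⟩ else 0)
    rw [dif_pos j.2, ← e0 ⟨i, hi⟩ j]
  · rintro ⟨x, hx⟩
    refine ⟨fun j => x j, fun i => ?_⟩
    have h1 := hx i i.2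
    rw [e1 i, Finset.sum_range] at h1
    refine h1.trans (le_of_eq ?_)
    unfold Matrix.mulVec dotProduct
    refine Finset.sum_congr rfl fun j _ => ?_
    rw [e0 i j]

theorem mM_iff (hm : 1 ≤ m) : (∃ u, mR m n ≤ (mM A b).mulVec u) ↔
    ∃ x : Fin n → ℝ, b ≤ A.mulVec x := by
  have h0 : ∀ i, Ext A b i 0 = - start A b [1, i] := fun i => by
    unfold Ext; rw [if_pos rfl, zero_sub]
  have h1 : ∀ i j, Ext A b i (j + 1) = start A b [0, i, j] := fun i j => by
    unfold Ext; rw [if_neg (Nat.succ_ne_zero j), zero_add, Nat.add_sub_cancel]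
  rw [feas_iff A b, ← kernel_iff (fun i j => start A b [0, i, j]) (fun i => start A b [1, i]) h0 h1,
    ← MM_solve (orthK hm) (0, 0, 0) (List.mem_toFinset.2 (mem_cols.2 (Or.inl
      ⟨by dsimp only; omega, by dsimp only; omega, rfl⟩)))]
  have key : ∀ p : Fin (idxL m n).length, mR m n p =
      if (idxL m n)[p] = (0, (0, 0, 0)) then 1 else 0 := by
    intro p
    have h2 := idx_zero m n
    unfold mR
    by_cases hp : (p : ℕ) = 0
    · rw [if_pos hp]
      have : p = ⟨0, idx_pos m n⟩ := Fin.ext hp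
      subst this
      rw [if_pos]
      exact h2
    · rw [if_neg hp, if_neg]
      intro he
      rw [← h2] at he
      exact hp ((nodup_idx m n).getElem_inj_iff.1 he)
  constructor
  · rintro ⟨u, hu⟩
    refine ⟨fun y => if h : (idxL m n).idxOf y < (idxL m n).length then
      u ⟨(idxL m n).idxOf y, h⟩ else 0, fun z hz => ?_⟩
    rw [← toFinset_idx, List.mem_toFinset] at hz
    obtain ⟨p, hp, rfl⟩ := List.getElem_of_mem hz
    have h2 := hu ⟨p, hp⟩
    rw [key] at h2
    refine h2.trans (le_of_eq ?_)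
    unfold Matrix.mulVec dotProduct mM
    rw [← sum_fin_idx]
    refine Finset.sum_congr rfl fun q _ => ?_
    dsimp only
    have h3 : (idxL m n).idxOf (idxL m n)[q] = (q : ℕ) :=
      (nodup_idx m n).idxOf_getElem _ _
    congr 1
    rw [dif_pos (by rw [h3]; exact q.2)]
    congr 1
    exact Fin.ext h3.symm
  · rintro ⟨u, hu⟩
    refine ⟨fun q => u (idxL m n)[q], fun p => ?_⟩
    rw [key]
    refine (hu _ (mem_idx' p)).trans (le_of_eq ?_)
    unfold Matrix.mulVec dotProduct mM
    rw [← sum_fin_idx]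

end

/-! ### Lengths -/

theorem start_RP' {m n : ℕ} {A : Matrix (Fin m) (Fin n) ℝ} {b : Fin m → ℝ}
    {A' : Matrix (Fin m) (Fin n) ℚ} {b' : Fin m → ℚ} (hA : ∀ i j, ((A' i j : ℚ) : ℝ) = A i j)
    (hb : ∀ i, ((b' i : ℚ) : ℝ) = b i) (r : Reg) :
    RP (inputLength A' b' + 1) (start A b r) := by
  obtain ⟨g0, g1⟩ := start_RP hA hb
  by_cases h0 : ∃ i j, r = [0, i, j]
  · obtain ⟨i, j, rfl⟩ := h0
    exact g0 i j
  · by_cases h1 : ∃ i, r = [1, i]
    · obtain ⟨i, rfl⟩ := h1
      exact g1 i
    · by_cases h2 : r = [2]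
      · subst h2
        exact RP.one.mono (by omega)
      · have : start A b r = 0 := by
          unfold start
          split
          · exact absurd ⟨_, _, rfl⟩ h0
          · exact absurd ⟨_, rfl⟩ h1
          · exact absurd rfl h2
          · rfl
        rw [this]
        exact RP.zero.mono (Nat.zero_le _)

/-- the exponent of the bound for the heights -/
def XX (m n L : ℕ) : ℕ := ((colsL m n).length + 1) ^ 9 * (L + 1)

section

variable {m n : ℕ} {A : Matrix (Fin m) (Fin n) ℝ} {b : Fin m → ℝ}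
  {A' : Matrix (Fin m) (Fin n) ℚ} {b' : Fin m → ℚ}

theorem layers_RP (hA : ∀ i j, ((A' i j : ℚ) : ℝ) = A i j) (hb : ∀ i, ((b' i : ℚ) : ℝ) = b i) :
    (∀ v ∈ outs (progs (layers m n)) (start A b), RP (XX m n (inputLength A' b')) v) ∧
      ∀ r, RP (XX m n (inputLength A' b')) (FF A b r) := by
  refine (okAll m n).rp (S := (colsL m n).length + 1) ?_ ?_ _ _ (start_RP' hA hb)
  · rw [length_cols]; omega
  · intro l hl p hp
    have hc : m + 2 ≤ (colsL m n).length + 1 ∧ n + 2 ≤ (colsL m n).length + 1 := by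
      rw [length_cols]; omega
    simp only [layers, List.mem_cons, List.not_mem_nil, or_false] at hl
    rcases hl with rfl | rfl | rfl | rfl | rfl | rfl | rfl | rfl | rfl
    · exact absurd hp (by simp)
    · exact absurd hp (by simp)
    · simp only [acc3, List.mem_map] at hp
      obtain ⟨q, -, rfl⟩ := hp
      simp only [List.length_map, List.length_range]
      omega
    · exact absurd hp (by simp)
    · exact absurd hp (by simp)
    · simp only [acc6, List.mem_map] at hp
      obtain ⟨q, -, rfl⟩ := hp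
      simp only [List.length_map]
      exact le_refl _
    · exact absurd hp (by simp)
    · exact absurd hp (by simp)
    · simp only [acc9, List.mem_map] at hp
      obtain ⟨q, -, rfl⟩ := hp
      simp only [List.length_map, List.length_range]
      omega

theorem outs_RP' (hA : ∀ i j, ((A' i j : ℚ) : ℝ) = A i j) (hb : ∀ i, ((b' i : ℚ) : ℝ) = b i)
    (v : ℝ) (hv : v ∈ outs (prog m n) (start A b)) :
    RP (2 * XX m n (inputLength A' b')) v := by
  obtain ⟨h1, h2⟩ := layers_RP hA hb
  unfold prog at hv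
  rw [outs_append, outs_append, List.mem_append, List.mem_append] at hv
  rcases hv with hv | hv | hv
  · exact (h1 v hv).mono (by omega)
  · obtain ⟨I, -, rfl⟩ := outs_par _ (par_out m n) _ _ hv
    exact RP_ival h2 I
  · rw [outs_clean _ _ _ hv]
    exact RP.zero.mono (Nat.zero_le _)

theorem GG_RP (hA : ∀ i j, ((A' i j : ℚ) : ℝ) = A i j) (hb : ∀ i, ((b' i : ℚ) : ℝ) = b i)
    (r : Reg) : RP (2 * XX m n (inputLength A' b')) (GG A b r) := by
  obtain ⟨-, h2⟩ := layers_RP hA hb
  by_cases h3 : ∃ I ∈ outL m n, I.dst = r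
  · obtain ⟨I, hI, rfl⟩ := h3
    unfold GG
    rw [fin_par _ (par_out m n) _ _ hI]
    exact RP_ival h2 I
  · push Not at h3
    unfold GG
    rw [fin_of_not _ _ h3]
    exact (h2 r).mono (by omega)

theorem mM_RP (hA : ∀ i j, ((A' i j : ℚ) : ℝ) = A i j) (hb : ∀ i, ((b' i : ℚ) : ℝ) = b i)
    (p q : Fin (idxL m n).length) : RP (2 * XX m n (inputLength A' b')) (mM A b p q) := by
  have h := GG_RP hA hb [0, (p : ℕ), (q : ℕ)]
  rwa [GG_M p.2 q.2] at h

theorem mR_RP (hA : ∀ i j, ((A' i j : ℚ) : ℝ) = A i j) (hb : ∀ i, ((b' i : ℚ) : ℝ) = b i)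
    (p : Fin (idxL m n).length) : RP (2 * XX m n (inputLength A' b')) (mR m n p) := by
  have h := GG_RP hA hb [1, (p : ℕ)]
  rwa [GG_R p.2] at h

end

/-! ### Bounds -/

theorem accProg_length (L : List (Reg × List Reg)) (k : ℕ) (h : ∀ p ∈ L, p.2.length = k) :
    (accProg L).length = L.length * k := by
  induction L with
  | nil => simp [accProg]
  | cons p L ih =>
    rw [accProg_cons, List.length_append, List.length_map, h p (List.mem_cons_self ..),
      ih (fun q hq => h q (List.mem_cons_of_mem _ hq)), List.length_cons]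
    ring

theorem length_progs (m n : ℕ) : (progs (layers m n)).length =
    (m * (n + 1) + 1) + (m * (m * (n + 1)) + 1) + (m * m) * (n + 1) +
    (m + 1) * (colsL m n).length + (m + 1) * (colsL m n).length + (m + 1) * (colsL m n).length +
    (m + 1) * (colsL m n).length + (m + 1) * ((colsL m n).length * (colsL m n).length) +
    (colsL m n).length * (colsL m n).length * (m + 1) := by
  have e : progs (layers m n) = par1 m n ++ (par2 m n ++ (accProg (acc3 m n) ++
      (par4 m n ++ (par5 m n ++ (accProg (acc6 m n) ++ (par7 m n ++ (par8 m n ++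
        accProg (acc9 m n)))))))) := by
    simp [progs, layers, Lay.prog, accProg]
  have a3 : (accProg (acc3 m n)).length = (m * m) * (n + 1) := by
    rw [accProg_length _ (n + 1)]
    · simp [acc3, List.length_product]
    · intro p hp
      simp only [acc3, List.mem_map] at hp
      obtain ⟨q, -, rfl⟩ := hp
      simp
  have a6 : (accProg (acc6 m n)).length = (m + 1) * (colsL m n).length := by
    rw [accProg_length _ (colsL m n).length]
    · simp [acc6]
    · intro p hp
      simp only [acc6, List.mem_map] at hp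
      obtain ⟨q, -, rfl⟩ := hp
      simp
  have a9 : (accProg (acc9 m n)).length =
      (colsL m n).length * (colsL m n).length * (m + 1) := by
    rw [accProg_length _ (m + 1)]
    · simp [acc9, List.length_product]
    · intro p hp
      simp only [acc9, List.mem_map] at hp
      obtain ⟨q, -, rfl⟩ := hp
      simp
  rw [e]
  simp only [List.length_append, a3, a6, a9, par1, par2, par4, par5, par7, par8, List.length_map,
    List.length_product, List.length_range, List.length_cons, List.length_nil]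
  ring

theorem bounds' {m n x : ℕ} (hx : m + n ≤ x) :
    (colsL m n).length + 1 ≤ 6 * (x + 1) ^ 2 ∧ (idxL m n).length ≤ 10 * (x + 1) ^ 2 ∧
      (prog m n).length ≤ 260 * (x + 1) ^ 5 := by
  set B := x + 1 with hB
  have hB1 : 1 ≤ B := by omega
  have hmB : m + 1 ≤ B := by omega
  have hnB : n + 1 ≤ B := by omega
  have hmm : m * m ≤ B * B := Nat.mul_le_mul (by omega) (by omega)
  have hBB : B ≤ B * B := Nat.le_mul_of_pos_left _ hB1
  have hc : (colsL m n).length ≤ 5 * B ^ 2 := by
    rw [length_cols, sq]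
    omega
  set c := (colsL m n).length with hcd
  have p2 : 1 ≤ B ^ 2 := Nat.one_le_pow _ _ hB1
  have hi : (idxL m n).length = 2 * c := by
    rw [length_idx, hcd, length_cols]
  refine ⟨by omega, by omega, ?_⟩
  have hl : (prog m n).length = (progs (layers m n)).length +
      (((2 * c) * (2 * c) + 2 * c) + (progs (layers m n)).length) := by
    unfold prog outL clean
    simp only [List.length_append, List.length_map, List.length_product, List.length_zipIdx, hi]
  have q1 : m * (n + 1) ≤ B ^ 5 := by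
    calc m * (n + 1) ≤ B * B := Nat.mul_le_mul (by omega) hnB
      _ = B ^ 2 := by ring
      _ ≤ B ^ 5 := Nat.pow_le_pow_right hB1 (by norm_num)
  have q2 : m * (m * (n + 1)) ≤ B ^ 5 := by
    calc m * (m * (n + 1)) ≤ B * (B * B) :=
          Nat.mul_le_mul (by omega) (Nat.mul_le_mul (by omega) hnB)
      _ = B ^ 3 := by ring
      _ ≤ B ^ 5 := Nat.pow_le_pow_right hB1 (by norm_num)
  have q3 : (m * m) * (n + 1) ≤ B ^ 5 := by
    rw [mul_assoc]; exact q2
  have q4 : (m + 1) * c ≤ 5 * B ^ 5 := by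
    calc (m + 1) * c ≤ B * (5 * B ^ 2) := Nat.mul_le_mul hmB hc
      _ = 5 * B ^ 3 := by ring
      _ ≤ 5 * B ^ 5 := Nat.mul_le_mul_left _ (Nat.pow_le_pow_right hB1 (by norm_num))
  have q8 : (m + 1) * (c * c) ≤ 25 * B ^ 5 := by
    calc (m + 1) * (c * c) ≤ B * ((5 * B ^ 2) * (5 * B ^ 2)) :=
          Nat.mul_le_mul hmB (Nat.mul_le_mul hc hc)
      _ = 25 * B ^ 5 := by ring
  have q9 : c * c * (m + 1) ≤ 25 * B ^ 5 := by
    rw [mul_comm]; exact q8
  have q10 : (2 * c) * (2 * c) ≤ 100 * B ^ 5 := by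
    calc (2 * c) * (2 * c) ≤ (2 * (5 * B ^ 2)) * (2 * (5 * B ^ 2)) :=
          Nat.mul_le_mul (Nat.mul_le_mul_left _ hc) (Nat.mul_le_mul_left _ hc)
      _ = 100 * B ^ 4 := by ring
      _ ≤ 100 * B ^ 5 := Nat.mul_le_mul_left _ (Nat.pow_le_pow_right hB1 (by norm_num))
  have q11 : 2 * c ≤ 10 * B ^ 5 := by
    calc 2 * c ≤ 2 * (5 * B ^ 2) := Nat.mul_le_mul_left _ hc
      _ = 10 * B ^ 2 := by ring
      _ ≤ 10 * B ^ 5 := Nat.mul_le_mul_left _ (Nat.pow_le_pow_right hB1 (by norm_num))
  have q0 : 1 ≤ B ^ 5 := Nat.one_le_pow _ _ hB1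
  have hp := length_progs m n
  rw [← hcd] at hp
  rw [hl, hp]
  omega

/-- the polynomial of the reduction -/
noncomputable def QP : Polynomial ℕ := 10 ^ 10 * (Polynomial.X + 1) ^ 30

theorem QP_eval (x : ℕ) : QP.eval x = 10 ^ 10 * (x + 1) ^ 30 := by
  unfold QP
  simp

theorem le_QP {x k e : ℕ} (he : e ≤ 30) (hk : k ≤ 10 ^ 10) : k * (x + 1) ^ e ≤ QP.eval x := by
  rw [QP_eval]
  exact Nat.mul_le_mul hk (Nat.pow_le_pow_right (by omega) he)

theorem bound_XX {m n L : ℕ} (hL : m + n ≤ L) :
    XX m n L ≤ 10077696 * (L + 1) ^ 19 := by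
  unfold XX
  calc ((colsL m n).length + 1) ^ 9 * (L + 1) ≤ (6 * (L + 1) ^ 2) ^ 9 * (L + 1) :=
        Nat.mul_le_mul_right _ (Nat.pow_le_pow_left (bounds' hL).1 _)
    _ = _ := by ring

/-- **If linear feasibility is strongly polynomial on a class which contains the systems computed,
then it is so on all systems.** -/
theorem to_all' (C : ∀ m n : ℕ, Matrix (Fin m) (Fin n) ℝ → (Fin m → ℝ) → Prop)
    (hC : ∀ (m n : ℕ) (A : Matrix (Fin m) (Fin n) ℝ) (b : Fin m → ℝ), 1 ≤ m →
      C _ _ (mM A b) (mR m n)) (h : StronglyPoly C) : StronglyPoly fun _ _ _ _ => True := by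
  obtain ⟨α, h1, h2, p, h3⟩ := h
  refine ⟨redAlg α, redAlg_control h1, redAlg_free h2, p.comp (2 * QP) + QP, ?_⟩
  intro m n hm hn A b _
  have hN1 : 1 ≤ (idxL m n).length := idx_pos m n
  obtain ⟨ans, nums, steps, hrun, hans, hsteps, hlen⟩ := h3 _ _ hN1 hN1 (mM A b) (mR m n)
    (hC m n A b hm)
  obtain ⟨b1, b2, b3⟩ := bounds' (le_refl (m + n))
  have hsize : (idxL m n).length + (idxL m n).length ≤ (2 * QP).eval (m + n) := by
    have := le_QP (x := m + n) (k := 10) (e := 2) (by norm_num) (by norm_num)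
    rw [Polynomial.eval_mul]
    simp only [Polynomial.eval_ofNat]
    omega
  have hp : p.eval ((idxL m n).length + (idxL m n).length) ≤ p.eval ((2 * QP).eval (m + n)) :=
    eval_mono p hsize
  have hq : (p.comp (2 * QP) + QP).eval (m + n) =
      p.eval ((2 * QP).eval (m + n)) + QP.eval (m + n) := by
    rw [Polynomial.eval_add, Polynomial.eval_comp]
  rw [← fin_prog] at hrun
  have hrun' := run_pre' ∅ (prog m n) _ _ _ (nz_prog hm) _ hrun
  refine ⟨ans, outs (prog m n) (start A b) ++ nums, (prog m n).length + steps, ?_, ?_, ?_, ?_⟩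
  · rw [redAlg_eq]
    exact run_mono _ _ (by rw [hq]; omega) _ _ _ hrun'
  · rw [hans, mM_iff A b hm]
  · have h5 : (prog m n).length ≤ QP.eval (m + n) :=
      b3.trans (le_QP (k := 260) (e := 5) (by norm_num) (by norm_num))
    rw [hq]
    omega
  · intro A' b' hA hb v hv
    set L := inputLength A' b' with hL
    have hmn : m + n ≤ L := len_ge A' b' hm hn
    obtain ⟨c1, c2, c3⟩ := bounds' hmn
    have hX := bound_XX hmn
    have hqL : (p.comp (2 * QP) + QP).eval L = p.eval ((2 * QP).eval L) + QP.eval L := by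
      rw [Polynomial.eval_add, Polynomial.eval_comp]
    have hX' : 2 * (2 * XX m n L) + 3 ≤ 40310787 * (L + 1) ^ 19 := by
      have : 1 ≤ (L + 1) ^ 19 := Nat.one_le_pow _ _ (by omega)
      omega
    rcases List.mem_append.1 hv with hv | hv
    · obtain ⟨q, hq1, hq2⟩ := outs_RP' hA hb v hv
      refine ⟨q, hq1, (bitLength_le (E := 2 * XX m n L) hq2).trans ?_⟩
      have h6 : 40310787 * (L + 1) ^ 19 ≤ QP.eval L := le_QP (by norm_num) (by norm_num)
      rw [hqL]
      omega
    · have hAr : ∀ i j, ∃ q : ℚ, (q : ℝ) = mM A b i j ∧ hN q ≤ 2 ^ (2 * XX m n L) :=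
        fun i j => mM_RP hA hb _ _
      have hbr : ∀ i, ∃ q : ℚ, (q : ℝ) = mR m n i ∧ hN q ≤ 2 ^ (2 * XX m n L) :=
        fun i => mR_RP hA hb _
      choose A'' hA1 hA2 using hAr
      choose b'' hb1 hb2 using hbr
      obtain ⟨q, hq1, hq2⟩ := hlen A'' b'' hA1 hb1 v hv
      refine ⟨q, hq1, hq2.trans ?_⟩
      have h7 : inputLength A'' b'' ≤ (2 * QP).eval L := by
        have h8 : inputLength A'' b'' ≤
            ((idxL m n).length * (idxL m n).length + (idxL m n).length) *
              (2 * (2 * XX m n L) + 3) := by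
          unfold inputLength
          have h9 : ∑ i, ∑ j, bitLength (A'' i j) ≤
              ∑ _i : Fin (idxL m n).length, ∑ _j : Fin (idxL m n).length,
                (2 * (2 * XX m n L) + 3) :=
            Finset.sum_le_sum fun i _ => Finset.sum_le_sum fun j _ => bitLength_le (hA2 i j)
          have h10 : ∑ i, bitLength (b'' i) ≤
              ∑ _i : Fin (idxL m n).length, (2 * (2 * XX m n L) + 3) :=
            Finset.sum_le_sum fun i _ => bitLength_le (hb2 i)
          simp only [Finset.sum_const, Finset.card_univ, Fintype.card_fin, smul_eq_mul] at h9 h10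
          calc _ ≤ _ := Nat.add_le_add h9 h10
            _ = _ := by ring
        have h11 : (idxL m n).length * (idxL m n).length + (idxL m n).length ≤
            110 * (L + 1) ^ 4 := by
          have h12 : (idxL m n).length * (idxL m n).length ≤ 100 * (L + 1) ^ 4 := by
            calc (idxL m n).length * (idxL m n).length ≤
                (10 * (L + 1) ^ 2) * (10 * (L + 1) ^ 2) := Nat.mul_le_mul c2 c2
              _ = _ := by ring
          have h24 : (L + 1) ^ 2 ≤ (L + 1) ^ 4 := Nat.pow_le_pow_right (by omega) (by omega)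
          omega
        have h13 : 110 * 40310787 * (L + 1) ^ 23 ≤ QP.eval L :=
          le_QP (by norm_num) (by norm_num)
        have h14 : (2 * QP).eval L = 2 * QP.eval L := by
          rw [Polynomial.eval_mul]; simp only [Polynomial.eval_ofNat]
        calc inputLength A'' b'' ≤ _ := h8
          _ ≤ (110 * (L + 1) ^ 4) * (40310787 * (L + 1) ^ 19) := Nat.mul_le_mul h11 hX'
          _ = 110 * 40310787 * (L + 1) ^ 23 := by ring
          _ ≤ (2 * QP).eval L := by omega
      rw [hqL]
      exact (eval_mono p h7).trans (Nat.le_add_right _ _)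

end Pool.Agent.U780.RF
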