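import Pool.Agent.U780.RF.Geo

/-!
# Orthants and orthogonal matrices
-/

set_option autoImplicit false

namespace Pool.Agent.U780.RF

open Pool.Agent.H558R2 Pool.Agent.H622R3.SM Pool.Agent.U17.PN Finset

/-- The nonnegative orthant contains a vector `x` the `k`-th coordinate of which is positive and
the image `U x` of which is in the nonnegative orthant. -/
def Meets {d : ℕ} (U : Matrix (Fin d) (Fin d) ℝ) (k : Fin d) : Prop :=
  ∃ x : Fin d → ℝ, (∀ i, 0 ≤ x i) ∧ 0 < x k ∧ ∀ i, 0 ≤ U.mulVec x i

/-- For an orthogonal matrix `U`, exactly one of `U` and `- U` maps a nonnegative vector whose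
`k`-th coordinate is positive to a nonnegative vector. -/
theorem meets_neg {d : ℕ} {U : Matrix (Fin d) (Fin d) ℝ} (hU : U.transpose * U = 1)
    (k : Fin d) : Meets (-U) k ↔ ¬ Meets U k := by
  have hU' : U * U.transpose = 1 := mul_eq_one_comm.1 hU
  constructor
  · rintro ⟨z, hz, hzk, hUz⟩ ⟨x, hx, hxk, hUx⟩
    have h1 : dotProduct (U.mulVec x) (U.mulVec z) = dotProduct x z := by
      rw [Matrix.dotProduct_mulVec, ← Matrix.mulVec_transpose, Matrix.mulVec_mulVec, hU,
        Matrix.one_mulVec]
    have h2 : 0 < dotProduct x z := by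
      unfold dotProduct
      exact Finset.sum_pos' (fun i _ => mul_nonneg (hx i) (hz i))
        ⟨k, Finset.mem_univ k, mul_pos hxk hzk⟩
    have h3 : dotProduct (U.mulVec x) (U.mulVec z) ≤ 0 := by
      unfold dotProduct
      refine Finset.sum_nonpos fun i _ => ?_
      have h4 := hUz i
      rw [Matrix.neg_mulVec, Pi.neg_apply] at h4
      exact mul_nonpos_of_nonneg_of_nonpos (hUx i) (by linarith)
    linarith
  · intro h
    obtain ⟨w, hw, hf⟩ := H575R2.farkas_lin (d + d)
      (Fin.addCases (fun i => -(LinearMap.proj i : (Fin d → ℝ) →ₗ[ℝ] ℝ))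
        (fun i => -((LinearMap.proj i : (Fin d → ℝ) →ₗ[ℝ] ℝ).comp (Matrix.toLin' U))))
      (LinearMap.proj k : (Fin d → ℝ) →ₗ[ℝ] ℝ) (by
        intro x hx
        by_contra hk
        push Not at hk
        refine h ⟨x, fun i => ?_, hk, fun i => ?_⟩
        · have h1 := hx (Fin.castAdd d i)
          rw [Fin.addCases_left] at h1
          simpa using h1
        · have h1 := hx (Fin.natAdd d i)
          rw [Fin.addCases_right] at h1
          simpa using h1)
    simp only [Fin.sum_univ_add, Fin.addCases_left, Fin.addCases_right, LinearMap.neg_apply,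
      LinearMap.proj_apply, LinearMap.comp_apply, Matrix.toLin'_apply] at hf
    set w' : Fin d → ℝ := fun i => w (Fin.natAdd d i) with hw'
    have h5 : ∀ j, -(U.transpose.mulVec w' j) = w (Fin.castAdd d j) + (Pi.single k 1 : Fin d → ℝ) j := by
      intro j
      have h6 := hf (Pi.single j 1)
      have h7 : ∑ i, w (Fin.castAdd d i) * -(Pi.single j 1 : Fin d → ℝ) i =
          - w (Fin.castAdd d j) := by
        rw [Finset.sum_eq_single j]
        · simp
        · intro i _ hi
          rw [Pi.single_eq_of_ne hi]; simp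
        · intro h; exact absurd (Finset.mem_univ j) h
      have h8 : ∑ i, w (Fin.natAdd d i) * -(U.mulVec (Pi.single j 1)) i =
          -(U.transpose.mulVec w' j) := by
        unfold Matrix.mulVec dotProduct
        rw [← Finset.sum_neg_distrib]
        refine Finset.sum_congr rfl fun i _ => ?_
        have h9 : ∑ l, U i l * (Pi.single j 1 : Fin d → ℝ) l = U i j := by
          rw [Finset.sum_eq_single j]
          · simp
          · intro l _ hl
            rw [Pi.single_eq_of_ne hl, mul_zero]
          · intro h; exact absurd (Finset.mem_univ j) h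
        rw [h9]
        show w (Fin.natAdd d i) * -U i j = -(U i j * w (Fin.natAdd d i))
        ring
      rw [h7, h8] at h6
      have h10 : (Pi.single j 1 : Fin d → ℝ) k = (Pi.single k 1 : Fin d → ℝ) j := by
        by_cases hjk : j = k
        · subst hjk; rfl
        · rw [Pi.single_eq_of_ne hjk, Pi.single_eq_of_ne (Ne.symm hjk)]
      rw [h10] at h6
      linarith
    refine ⟨-(U.transpose.mulVec w'), fun j => ?_, ?_, fun i => ?_⟩
    · rw [Pi.neg_apply, h5]
      refine add_nonneg (hw _) ?_
      by_cases hj : j = k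
      · subst hj; simp
      · rw [Pi.single_eq_of_ne hj]
    · rw [Pi.neg_apply, h5, Pi.single_eq_same]
      have := hw (Fin.castAdd d k)
      linarith
    · rw [Matrix.neg_mulVec, Matrix.mulVec_neg, neg_neg, Matrix.mulVec_mulVec, hU',
        Matrix.one_mulVec]
      exact hw _

/-- The matrix `(1/2) (1, R; R, 1)`. For a symmetric orthogonal matrix `R` it is half of the Gram
matrix of two orthonormal bases. -/
noncomputable def pairMatrix {d : ℕ} (R : Matrix (Fin d) (Fin d) ℝ) :
    Matrix (Fin (d + d)) (Fin (d + d)) ℝ :=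
  Matrix.reindex finSumFinEquiv finSumFinEquiv
    ((1 / 2 : ℝ) • Matrix.fromBlocks (1 : Matrix (Fin d) (Fin d) ℝ) R R 1)

section pair

variable {d : ℕ} {R : Matrix (Fin d) (Fin d) ℝ}

theorem pair_ll (i j : Fin d) : pairMatrix R (Fin.castAdd d i) (Fin.castAdd d j) =
    if i = j then 1 / 2 else 0 := by
  simp [pairMatrix, Matrix.one_apply]

theorem pair_lr (i j : Fin d) : pairMatrix R (Fin.castAdd d i) (Fin.natAdd d j) =
    R i j / 2 := by
  show (1 / 2 : ℝ) * Matrix.fromBlocks (1 : Matrix (Fin d) (Fin d) ℝ) R R 1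
    (finSumFinEquiv.symm (Fin.castAdd d i)) (finSumFinEquiv.symm (Fin.natAdd d j)) = _
  rw [finSumFinEquiv_symm_apply_castAdd, finSumFinEquiv_symm_apply_natAdd,
    Matrix.fromBlocks_apply₁₂]
  ring

theorem pair_rl (i j : Fin d) : pairMatrix R (Fin.natAdd d i) (Fin.castAdd d j) =
    R i j / 2 := by
  show (1 / 2 : ℝ) * Matrix.fromBlocks (1 : Matrix (Fin d) (Fin d) ℝ) R R 1
    (finSumFinEquiv.symm (Fin.natAdd d i)) (finSumFinEquiv.symm (Fin.castAdd d j)) = _
  rw [finSumFinEquiv_symm_apply_castAdd, finSumFinEquiv_symm_apply_natAdd,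
    Matrix.fromBlocks_apply₂₁]
  ring

theorem pair_rr (i j : Fin d) : pairMatrix R (Fin.natAdd d i) (Fin.natAdd d j) =
    if i = j then 1 / 2 else 0 := by
  show (1 / 2 : ℝ) * Matrix.fromBlocks (1 : Matrix (Fin d) (Fin d) ℝ) R R 1
    (finSumFinEquiv.symm (Fin.natAdd d i)) (finSumFinEquiv.symm (Fin.natAdd d j)) = _
  rw [finSumFinEquiv_symm_apply_natAdd, finSumFinEquiv_symm_apply_natAdd,
    Matrix.fromBlocks_apply₂₂, Matrix.one_apply]
  split_ifs <;> ring

theorem pair_mulVec_l (u : Fin (d + d) → ℝ) (i : Fin d) :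
    (pairMatrix R).mulVec u (Fin.castAdd d i) = u (Fin.castAdd d i) / 2 +
      R.mulVec (fun j => u (Fin.natAdd d j)) i / 2 := by
  unfold Matrix.mulVec dotProduct
  rw [Fin.sum_univ_add, Finset.sum_div]
  simp only [pair_ll, pair_lr]
  congr 1
  · simp; ring
  · exact Finset.sum_congr rfl fun j _ => by ring

theorem pair_mulVec_r (u : Fin (d + d) → ℝ) (i : Fin d) :
    (pairMatrix R).mulVec u (Fin.natAdd d i) = R.mulVec (fun j => u (Fin.castAdd d j)) i / 2 +
      u (Fin.natAdd d i) / 2 := by
  unfold Matrix.mulVec dotProduct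
  rw [Fin.sum_univ_add, Finset.sum_div]
  simp only [pair_rl, pair_rr]
  congr 1
  · exact Finset.sum_congr rfl fun j _ => by ring
  · simp; ring

theorem pair_half (hs : R.transpose = R) (ho : R * R = 1) : HalfProj (pairMatrix R) where
  symm := by
    unfold pairMatrix
    rw [Matrix.transpose_reindex, Matrix.transpose_smul, Matrix.fromBlocks_transpose, hs,
      Matrix.transpose_one]
  idem := by
    unfold pairMatrix
    rw [Matrix.reindex_apply, Matrix.submatrix_mul_equiv]
    congr 1
    rw [Matrix.smul_mul, Matrix.mul_smul, Matrix.fromBlocks_multiply, ho]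
    simp only [Matrix.one_mul, Matrix.mul_one]
    rw [Matrix.fromBlocks_smul, Matrix.fromBlocks_smul, Matrix.fromBlocks_smul]
    congr 1 <;> (ext i j; simp only [Matrix.smul_apply, Matrix.add_apply, smul_eq_mul]; ring)
  diag := by
    intro i
    refine Fin.addCases (fun i => ?_) (fun i => ?_) i
    · rw [pair_ll, if_pos rfl]
    · rw [pair_rr, if_pos rfl]

theorem pair_hits (ho : R * R = 1) (k : Fin d) :
    Hits (pairMatrix R) (Fin.castAdd d k) ↔ Meets R k := by
  constructor
  · rintro ⟨u, hu⟩
    obtain ⟨a1, a2⟩ := nonneg_of_single hu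
    set x : Fin d → ℝ := fun i => (pairMatrix R).mulVec u (Fin.castAdd d i) with hx
    have h1 : ∀ i, R.mulVec x i = (pairMatrix R).mulVec u (Fin.natAdd d i) := by
      intro i
      have h2 : x = (1 / 2 : ℝ) • (fun j => u (Fin.castAdd d j)) +
          (1 / 2 : ℝ) • R.mulVec (fun j => u (Fin.natAdd d j)) := by
        funext i
        rw [hx]
        simp only [Pi.add_apply, Pi.smul_apply, smul_eq_mul]
        rw [pair_mulVec_l]
        ring
      rw [h2, Matrix.mulVec_add, Matrix.mulVec_smul, Matrix.mulVec_smul, Matrix.mulVec_mulVec, ho,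
        Matrix.one_mulVec, pair_mulVec_r]
      simp only [Pi.add_apply, Pi.smul_apply, smul_eq_mul]
      ring
    refine ⟨x, fun i => a1 _, lt_of_lt_of_le one_pos a2, fun i => ?_⟩
    rw [h1]
    exact a1 _
  · rintro ⟨x, hx, hxk, hRx⟩
    set y : Fin d → ℝ := (1 / x k) • x with hy
    have hyn : ∀ i, 0 ≤ y i := fun i => by
      rw [hy, Pi.smul_apply, smul_eq_mul]
      exact mul_nonneg (by positivity) (hx i)
    have hyk : y k = 1 := by
      rw [hy, Pi.smul_apply, smul_eq_mul]
      field_simp
    have hRy : ∀ i, 0 ≤ R.mulVec y i := fun i => by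
      rw [hy, Matrix.mulVec_smul, Pi.smul_apply, smul_eq_mul]
      exact mul_nonneg (by positivity) (hRx i)
    have e1 : (fun j => (Fin.addCases y (R.mulVec y) (Fin.castAdd d j) : ℝ)) = y := by
      funext j; rw [Fin.addCases_left]
    have e2 : (fun j => (Fin.addCases y (R.mulVec y) (Fin.natAdd d j) : ℝ)) = R.mulVec y := by
      funext j; rw [Fin.addCases_right]
    have g1 : ∀ i, (pairMatrix R).mulVec (Fin.addCases y (R.mulVec y)) (Fin.castAdd d i) =
        y i := by
      intro i
      rw [pair_mulVec_l, e2, Fin.addCases_left, Matrix.mulVec_mulVec, ho, Matrix.one_mulVec]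
      ring
    have g2 : ∀ i, (pairMatrix R).mulVec (Fin.addCases y (R.mulVec y)) (Fin.natAdd d i) =
        R.mulVec y i := by
      intro i
      rw [pair_mulVec_r, e1, Fin.addCases_right]
      ring
    refine ⟨Fin.addCases y (R.mulVec y), single_of_nonneg ?_ ?_⟩
    · intro i
      refine Fin.addCases (fun i => ?_) (fun i => ?_) i
      · rw [g1]; exact hyn i
      · rw [g2]; exact hRy i
    · rw [g1, hyk]

end pair

/-- The instances `P u ≥ e_1` of linear feasibility, where `P = (1/2) (1, R; R, 1)` for a symmetric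
orthogonal matrix `R`. -/
inductive PairSystem : ∀ m n : ℕ, Matrix (Fin m) (Fin n) ℝ → (Fin m → ℝ) → Prop
  | mk (d : ℕ) (hd : 0 < d) (R : Matrix (Fin d) (Fin d) ℝ) (hs : R.transpose = R)
      (ho : R * R = 1) : PairSystem (d + d) (d + d) (pairMatrix R) (Pi.single ⟨0, by omega⟩ 1)

theorem PairSystem.of_eq {N d : ℕ} (h : N = d + d) (hd : 0 < d) (R : Matrix (Fin d) (Fin d) ℝ)
    (hs : R.transpose = R) (ho : R * R = 1) (M : Matrix (Fin N) (Fin N) ℝ) (r : Fin N → ℝ)
    (hM : ∀ i j, M i j = pairMatrix R (Fin.cast h i) (Fin.cast h j))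
    (hr : r = Pi.single ⟨0, by omega⟩ 1) : PairSystem N N M r := by
  subst h
  have : M = pairMatrix R := by
    ext i j
    exact hM i j
  rw [this, hr]
  exact PairSystem.mk d hd R hs ho

/-! ### The reflection computed -/

section

variable {m n : ℕ} (A : Matrix (Fin m) (Fin n) ℝ) (b : Fin m → ℝ)

/-- the symmetric orthogonal matrix -/
noncomputable def RR : Matrix (Fin (colsL m n).length) (Fin (colsL m n).length) ℝ := fun p q =>
  (if p = q then 1 else 0) - 2 * QQ (range (m + 1)) (colsL m n).toFinset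
    (Kf m n (Ext A b)) (colsL m n)[p] (colsL m n)[q]

theorem sum_fin_cols (f : Cod → ℝ) : ∑ q : Fin (colsL m n).length, f (colsL m n)[q] =
    ∑ z ∈ (colsL m n).toFinset, f z := by
  rw [sum_toFinset _ (nodup_cols m n)]
  exact Fin.sum_univ_fun_getElem _ _

theorem RR_symm : (RR A b).transpose = RR A b := by
  ext p q
  rw [Matrix.transpose_apply]
  unfold RR
  rw [QQ_symm]
  simp only [eq_comm]

theorem RR_sq (hm : 1 ≤ m) : RR A b * RR A b = 1 := by
  ext p q
  rw [Matrix.mul_apply, Matrix.one_apply]
  unfold RR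
  set Q := QQ (range (m + 1)) (colsL m n).toFinset (Kf m n (Ext A b)) with hQ
  have h1 : ∑ r : Fin (colsL m n).length, Q (colsL m n)[p] (colsL m n)[r] *
      Q (colsL m n)[r] (colsL m n)[q] = Q (colsL m n)[p] (colsL m n)[q] := by
    rw [sum_fin_cols (fun c => Q (colsL m n)[p] c * Q c (colsL m n)[q])]
    exact QQ_idem (orthK hm) _ _
  have h2 : ∑ r : Fin (colsL m n).length, ((if p = r then (1 : ℝ) else 0) -
      2 * Q (colsL m n)[p] (colsL m n)[r]) * ((if r = q then (1 : ℝ) else 0) -
      2 * Q (colsL m n)[r] (colsL m n)[q]) =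
      ∑ r : Fin (colsL m n).length, (if p = r then (1 : ℝ) else 0) * (if r = q then 1 else 0) -
      2 * (∑ r : Fin (colsL m n).length, (if p = r then (1 : ℝ) else 0) *
        Q (colsL m n)[r] (colsL m n)[q]) -
      2 * (∑ r : Fin (colsL m n).length, Q (colsL m n)[p] (colsL m n)[r] *
        (if r = q then (1 : ℝ) else 0)) +
      4 * ∑ r : Fin (colsL m n).length, Q (colsL m n)[p] (colsL m n)[r] *
        Q (colsL m n)[r] (colsL m n)[q] := by
    rw [Finset.mul_sum, Finset.mul_sum, Finset.mul_sum, ← Finset.sum_sub_distrib,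
      ← Finset.sum_sub_distrib, ← Finset.sum_add_distrib]
    exact Finset.sum_congr rfl fun r _ => by ring
  rw [h2, h1]
  simp only [ite_mul, one_mul, zero_mul, mul_ite, mul_one, mul_zero, Finset.sum_ite_eq,
    Finset.sum_ite_eq', Finset.mem_univ, if_true]
  ring

theorem idx_len (m n : ℕ) : (idxL m n).length = (colsL m n).length + (colsL m n).length := by
  rw [length_idx, length_cols]; ring

theorem idxL_eq (m n : ℕ) : idxL m n =
    (colsL m n).map (Prod.mk 0) ++ (colsL m n).map (Prod.mk 1) := by
  unfold idxL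
  simp [List.range_succ_eq_map, List.product_cons]

theorem idx_castAdd (i : Fin (colsL m n).length) :
    (idxL m n)[(Fin.cast (idx_len m n).symm (Fin.castAdd _ i))] = (0, (colsL m n)[i]) := by
  have h1 : (idxL m n)[(i : ℕ)]? = some (0, (colsL m n)[i]) := by
    rw [idxL_eq, List.getElem?_append_left (by rw [List.length_map]; exact i.2),
      List.getElem?_map, List.getElem?_eq_getElem i.2]
    rfl
  have h2 : (i : ℕ) < (idxL m n).length := by rw [idx_len]; omega
  rw [List.getElem?_eq_getElem h2] at h1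
  exact Option.some.inj h1

theorem idx_natAdd (i : Fin (colsL m n).length) :
    (idxL m n)[(Fin.cast (idx_len m n).symm (Fin.natAdd _ i))] = (1, (colsL m n)[i]) := by
  have h1 : (idxL m n)[(colsL m n).length + (i : ℕ)]? = some (1, (colsL m n)[i]) := by
    rw [idxL_eq, List.getElem?_append_right (by rw [List.length_map]; omega),
      List.length_map, Nat.add_sub_cancel_left, List.getElem?_map, List.getElem?_eq_getElem i.2]
    rfl
  have h2 : (colsL m n).length + (i : ℕ) < (idxL m n).length := by rw [idx_len]; omega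
  rw [List.getElem?_eq_getElem h2] at h1
  exact Option.some.inj h1

theorem DD_fin (i j : Fin (colsL m n).length) :
    DD (colsL m n)[i] (colsL m n)[j] = if i = j then 1 / 2 else 0 := by
  unfold DD
  by_cases h : i = j
  · subst h; simp
  · rw [if_neg h, if_neg]
    intro he
    exact h (Fin.ext ((nodup_cols m n).getElem_inj_iff.1 he))

theorem mM_pair (i j : Fin (idxL m n).length) : mM A b i j =
    pairMatrix (RR A b) (Fin.cast (idx_len m n) i) (Fin.cast (idx_len m n) j) := by
  have key : ∀ i' j' : Fin ((colsL m n).length + (colsL m n).length),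
      mM A b (Fin.cast (idx_len m n).symm i') (Fin.cast (idx_len m n).symm j') =
        pairMatrix (RR A b) i' j' := by
    intro i' j'
    unfold mM
    refine Fin.addCases (fun i => ?_) (fun i => ?_) i' <;>
      refine Fin.addCases (fun j => ?_) (fun j => ?_) j'
    · rw [idx_castAdd, idx_castAdd, MM_same, pair_ll, DD_fin]
    · rw [idx_castAdd, idx_natAdd, MM_diff (by norm_num), pair_lr, DD_fin]
      unfold RR
      split_ifs <;> ring
    · rw [idx_natAdd, idx_castAdd, MM_diff (by norm_num), pair_rl, DD_fin]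
      unfold RR
      split_ifs <;> ring
    · rw [idx_natAdd, idx_natAdd, MM_same, pair_rr, DD_fin]
  exact key (Fin.cast (idx_len m n) i) (Fin.cast (idx_len m n) j)

theorem cols_pos (m n : ℕ) : 0 < (colsL m n).length := by rw [length_cols]; omega

theorem mM_system (hm : 1 ≤ m) : PairSystem _ _ (mM A b) (mR m n) :=
  PairSystem.of_eq (idx_len m n) (cols_pos m n) (RR A b) (RR_symm A b) (RR_sq A b hm) _ _
    (mM_pair A b) mR_eq

theorem hits_cast {N d : ℕ} (h : N = d + d) (hd : 0 < d) (R : Matrix (Fin d) (Fin d) ℝ)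
    (M : Matrix (Fin N) (Fin N) ℝ)
    (hM : ∀ i j, M i j = pairMatrix R (Fin.cast h i) (Fin.cast h j)) :
    Hits M ⟨0, by omega⟩ ↔ Hits (pairMatrix R) (Fin.castAdd d ⟨0, hd⟩) := by
  subst h
  have : M = pairMatrix R := by
    ext i j
    exact hM i j
  rw [this]
  rfl

theorem RR_meets (hm : 1 ≤ m) : Meets (RR A b) ⟨0, cols_pos m n⟩ ↔
    ∃ x : Fin n → ℝ, b ≤ A.mulVec x := by
  rw [← pair_hits (RR_sq A b hm), ← hits_cast (idx_len m n) (cols_pos m n) (RR A b) (mM A b)
    (mM_pair A b), ← mM_iff A b hm, mR_eq]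
  rfl

end

/-- If linear feasibility is strongly polynomial on the systems of pairs of orthonormal bases, then
it is so on all systems. -/
theorem to_all'' (h : StronglyPoly PairSystem) : StronglyPoly fun _ _ _ _ => True :=
  to_all' PairSystem (fun _ _ A b hm => mM_system A b hm) h

end Pool.Agent.U780.RF
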