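import Pool.Agent.U780.RF.Slp

/-!
# The program of the reduction
-/

set_option autoImplicit false

namespace Pool.Agent.U780.RF

open Pool.Agent.H558R2 Pool.Agent.H622R3.SM Pool.Agent.U17.PN

/-- names of columns -/
abbrev Cod : Type := ℕ × ℕ × ℕ

/-- the columns: twice the columns of `(-b, A)` (the second time with the opposite sign, except for
the first one), the slack columns, and two copies of the additional columns -/
def colsL (m n : ℕ) : List Cod :=
  ((List.range 2) ×ˢ (List.range (n + 1))).map (fun p => (p.1, p.2, 0)) ++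
  ((List.range m).map (fun k => (2, k, 0)) ++
  ((List.range 2) ×ˢ ((List.range m) ×ˢ (List.range m))).map fun p => (p.1 + 3, p.2.1, p.2.2))

/-- the indices of the projection matrix -/
def idxL (m n : ℕ) : List (ℕ × Cod) := (List.range 2) ×ˢ (colsL m n)

/-- register of an entry of `(-b, A)` -/
def rE (i j : ℕ) : Reg := [3, i, j]
/-- register of a product -/
def rG (k l j : ℕ) : Reg := [4, k, l, j]
/-- register of a scalar product of rows of `(-b, A)` -/
def rS (k l : ℕ) : Reg := [5, k, l]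
/-- register of an entry of the matrix with orthogonal rows -/
def rK (i : ℕ) (c : Cod) : Reg := [6, i, c.1, c.2.1, c.2.2]
/-- register of the square of such an entry -/
def rZ (i : ℕ) (c : Cod) : Reg := [7, i, c.1, c.2.1, c.2.2]
/-- register of the square of the length of a row -/
def rN (i : ℕ) : Reg := [8, i]
/-- register of a quotient -/
def rQ (i : ℕ) (c : Cod) : Reg := [10, i, c.1, c.2.1, c.2.2]
/-- register of a product -/
def rT (i : ℕ) (c d : Cod) : Reg := [11, i, c.1, c.2.1, c.2.2, d.1, d.2.1, d.2.2]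
/-- register of an entry of the projection onto the span of the rows -/
def rU (c d : Cod) : Reg := [12, c.1, c.2.1, c.2.2, d.1, d.2.1, d.2.2]

/-- the instruction for an entry of `(-b, A)` -/
def iE (i j : ℕ) : Instr :=
  if j = 0 then ⟨Op.sub, rE i j, [9], [1, i]⟩ else ⟨Op.add, rE i j, [9], [0, i, j - 1]⟩

/-- the source for an entry of the matrix with orthogonal rows -/
def ksrc (m i : ℕ) (c : Cod) : Reg :=
  if i = m then (if 3 ≤ c.1 then [2] else [9])
  else if c.1 ≤ 1 then rE i c.2.1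
  else if c.1 = 2 then (if i = c.2.1 then [2] else [9])
  else if c.2.1 ≤ c.2.2 then
    (if i = c.2.1 then [2] else if i = c.2.2 then rS c.2.1 c.2.2 else [9])
  else [9]

/-- the sign of this entry is negative -/
def kneg (m i : ℕ) (c : Cod) : Bool :=
  decide (i ≠ m ∧ ((c.1 = 1 ∧ c.2.1 ≠ 0) ∨ c.1 = 2 ∨ (c.1 = 3 ∧ i ≠ c.2.1) ∨
    (c.1 = 4 ∧ i = c.2.1)))

/-- the instruction for an entry of the matrix with orthogonal rows -/
def iK (m i : ℕ) (c : Cod) : Instr :=
  if kneg m i c = true then ⟨Op.sub, rK i c, [9], ksrc m i c⟩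
  else ⟨Op.add, rK i c, [9], ksrc m i c⟩

/-- layer 1 -/
def par1 (m n : ℕ) : List Instr :=
  ((List.range m) ×ˢ (List.range (n + 1))).map (fun p => iE p.1 p.2) ++
    [⟨Op.add, [13], [2], [2]⟩]

/-- layer 2 -/
def par2 (m n : ℕ) : List Instr :=
  ((List.range m) ×ˢ ((List.range m) ×ˢ (List.range (n + 1)))).map
    (fun p => ⟨Op.mul, rG p.1 p.2.1 p.2.2, rE p.1 p.2.2, rE p.2.1 p.2.2⟩) ++
    [⟨Op.div, [14], [2], [13]⟩]

/-- layer 3 -/
def acc3 (m n : ℕ) : List (Reg × List Reg) :=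
  ((List.range m) ×ˢ (List.range m)).map
    (fun p => (rS p.1 p.2, (List.range (n + 1)).map fun j => rG p.1 p.2 j))

/-- layer 4 -/
def par4 (m n : ℕ) : List Instr :=
  ((List.range (m + 1)) ×ˢ (colsL m n)).map (fun p => iK m p.1 p.2)

/-- layer 5 -/
def par5 (m n : ℕ) : List Instr :=
  ((List.range (m + 1)) ×ˢ (colsL m n)).map
    (fun p => ⟨Op.mul, rZ p.1 p.2, rK p.1 p.2, rK p.1 p.2⟩)

/-- layer 6 -/
def acc6 (m n : ℕ) : List (Reg × List Reg) :=
  (List.range (m + 1)).map (fun i => (rN i, (colsL m n).map fun c => rZ i c))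

/-- layer 7 -/
def par7 (m n : ℕ) : List Instr :=
  ((List.range (m + 1)) ×ˢ (colsL m n)).map
    (fun p => ⟨Op.div, rQ p.1 p.2, rK p.1 p.2, rN p.1⟩)

/-- layer 8 -/
def par8 (m n : ℕ) : List Instr :=
  ((List.range (m + 1)) ×ˢ ((colsL m n) ×ˢ (colsL m n))).map
    (fun p => ⟨Op.mul, rT p.1 p.2.1 p.2.2, rK p.1 p.2.1, rQ p.1 p.2.2⟩)

/-- layer 9 -/
def acc9 (m n : ℕ) : List (Reg × List Reg) :=
  ((colsL m n) ×ˢ (colsL m n)).map
    (fun p => (rU p.1 p.2, (List.range (m + 1)).map fun i => rT i p.1 p.2))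

/-- the layers -/
def layers (m n : ℕ) : List Lay :=
  [⟨par1 m n, []⟩, ⟨par2 m n, []⟩, ⟨[], acc3 m n⟩, ⟨par4 m n, []⟩, ⟨par5 m n, []⟩,
    ⟨[], acc6 m n⟩, ⟨par7 m n, []⟩, ⟨par8 m n, []⟩, ⟨[], acc9 m n⟩]

/-- levels of the registers -/
def lev : Reg → ℕ
  | 3 :: _ => 1
  | 13 :: _ => 1
  | 4 :: _ => 2
  | 14 :: _ => 2
  | 5 :: _ => 3
  | 6 :: _ => 4
  | 7 :: _ => 5
  | 8 :: _ => 6
  | 10 :: _ => 7
  | 11 :: _ => 8
  | 12 :: _ => 9
  | _ => 0

theorem iE_dst (i j : ℕ) : (iE i j).dst = rE i j := by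
  unfold iE; split_ifs <;> rfl

theorem iE_fst (i j : ℕ) : (iE i j).fst = [9] := by
  unfold iE; split_ifs <;> rfl

theorem iE_snd (i j : ℕ) : lev (iE i j).snd = 0 := by
  unfold iE; split_ifs <;> rfl

theorem iE_op (i j : ℕ) : (iE i j).op ≠ Op.div := by
  unfold iE; split_ifs <;> exact fun h => Op.noConfusion h

theorem iK_dst (m i : ℕ) (c : Cod) : (iK m i c).dst = rK i c := by
  unfold iK; split_ifs <;> rfl

theorem iK_fst (m i : ℕ) (c : Cod) : (iK m i c).fst = [9] := by
  unfold iK; split_ifs <;> rfl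

theorem iK_snd (m i : ℕ) (c : Cod) : (iK m i c).snd = ksrc m i c := by
  unfold iK; split_ifs <;> rfl

theorem iK_op (m i : ℕ) (c : Cod) : (iK m i c).op ≠ Op.div := by
  unfold iK; split_ifs <;> exact fun h => Op.noConfusion h

theorem lev_ksrc (m i : ℕ) (c : Cod) : lev (ksrc m i c) < 4 := by
  unfold ksrc
  split_ifs <;> simp [lev, rE, rS]

theorem nodup_cols (m n : ℕ) : (colsL m n).Nodup := by
  unfold colsL
  rw [List.nodup_append, List.nodup_append]
  refine ⟨?_, ⟨?_, ?_, ?_⟩, ?_⟩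
  · refine ((List.nodup_range).product (List.nodup_range)).map ?_
    intro p q h
    simp only [Prod.mk.injEq, and_true] at h
    exact Prod.ext h.1 h.2
  · refine (List.nodup_range).map ?_
    intro p q h
    simp only [Prod.mk.injEq, and_true, true_and] at h
    exact h
  · refine ((List.nodup_range).product ((List.nodup_range).product (List.nodup_range))).map ?_
    intro p q h
    simp only [Prod.mk.injEq, add_left_inj] at h
    exact Prod.ext h.1 (Prod.ext h.2.1 h.2.2)
  · intro a ha b hb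
    rw [List.mem_map] at ha hb
    obtain ⟨k, -, rfl⟩ := ha
    obtain ⟨q, -, rfl⟩ := hb
    simp only [ne_eq, Prod.mk.injEq, not_and]
    intro h
    omega
  · intro a ha b hb
    rw [List.mem_map] at ha
    obtain ⟨p, hp, rfl⟩ := ha
    rw [List.mem_product, List.mem_range] at hp
    rw [List.mem_append, List.mem_map, List.mem_map] at hb
    rcases hb with ⟨k, -, rfl⟩ | ⟨q, -, rfl⟩
    · simp only [ne_eq, Prod.mk.injEq, not_and]
      intro h
      omega
    · simp only [ne_eq, Prod.mk.injEq, not_and]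
      intro h
      omega

theorem nodup_idx (m n : ℕ) : (idxL m n).Nodup :=
  (List.nodup_range).product (nodup_cols m n)

theorem rK_inj {i j : ℕ} {c d : Cod} (h : rK i c = rK j d) : i = j ∧ c = d := by
  simp only [rK, List.cons.injEq, and_true, true_and] at h
  exact ⟨h.1, Prod.ext h.2.1 (Prod.ext h.2.2.1 h.2.2.2)⟩

theorem rZ_inj {i j : ℕ} {c d : Cod} (h : rZ i c = rZ j d) : i = j ∧ c = d := by
  simp only [rZ, List.cons.injEq, and_true, true_and] at h
  exact ⟨h.1, Prod.ext h.2.1 (Prod.ext h.2.2.1 h.2.2.2)⟩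

theorem rQ_inj {i j : ℕ} {c d : Cod} (h : rQ i c = rQ j d) : i = j ∧ c = d := by
  simp only [rQ, List.cons.injEq, and_true, true_and] at h
  exact ⟨h.1, Prod.ext h.2.1 (Prod.ext h.2.2.1 h.2.2.2)⟩

theorem rT_inj {i j : ℕ} {c d c' d' : Cod} (h : rT i c d = rT j c' d') :
    i = j ∧ c = c' ∧ d = d' := by
  simp only [rT, List.cons.injEq, and_true, true_and] at h
  exact ⟨h.1, Prod.ext h.2.1 (Prod.ext h.2.2.1 h.2.2.2.1),
    Prod.ext h.2.2.2.2.1 (Prod.ext h.2.2.2.2.2.1 h.2.2.2.2.2.2)⟩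

theorem rU_inj {c d c' d' : Cod} (h : rU c d = rU c' d') : c = c' ∧ d = d' := by
  simp only [rU, List.cons.injEq, and_true, true_and] at h
  exact ⟨Prod.ext h.1 (Prod.ext h.2.1 h.2.2.1),
    Prod.ext h.2.2.2.1 (Prod.ext h.2.2.2.2.1 h.2.2.2.2.2)⟩

/-- a layer of assignments -/
theorem ok_par {t : ℕ} {P : List Instr} (h1 : ∀ I ∈ P, lev I.dst = t) (h2 : ∀ I ∈ P, lev I.fst < t)
    (h3 : ∀ I ∈ P, lev I.snd < t) (h4 : ∀ I ∈ P, ∀ J ∈ P, I.dst = J.dst → I = J) :
    Ok lev t ⟨P, []⟩ :=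
  ⟨h1, h2, h3, h4, fun _ h => absurd h (by simp), fun _ h => absurd h (by simp), by simp,
    fun _ _ _ h => absurd h (by simp)⟩

/-- a layer of sums -/
theorem ok_acc {t : ℕ} {L : List (Reg × List Reg)} (h1 : ∀ p ∈ L, lev p.1 = t)
    (h2 : ∀ p ∈ L, ∀ s ∈ p.2, lev s < t) (h3 : (L.map Prod.fst).Nodup) :
    Ok lev t ⟨[], L⟩ :=
  ⟨fun _ h => absurd h (by simp), fun _ h => absurd h (by simp), fun _ h => absurd h (by simp),
    fun _ h => absurd h (by simp), h1, h2, h3, fun _ h => absurd h (by simp)⟩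

theorem ok1 (m n : ℕ) : Ok lev 1 ⟨par1 m n, []⟩ := by
  refine ok_par ?_ ?_ ?_ ?_
  · intro I hI
    simp only [par1, List.mem_append, List.mem_map, List.mem_singleton] at hI
    rcases hI with ⟨p, -, rfl⟩ | rfl
    · rw [iE_dst]; rfl
    · rfl
  · intro I hI
    simp only [par1, List.mem_append, List.mem_map, List.mem_singleton] at hI
    rcases hI with ⟨p, -, rfl⟩ | rfl
    · rw [iE_fst]; exact Nat.one_pos
    · exact Nat.one_pos
  · intro I hI
    simp only [par1, List.mem_append, List.mem_map, List.mem_singleton] at hI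
    rcases hI with ⟨p, -, rfl⟩ | rfl
    · rw [iE_snd]; exact Nat.one_pos
    · exact Nat.one_pos
  · intro I hI J hJ h
    simp only [par1, List.mem_append, List.mem_map, List.mem_singleton] at hI hJ
    rcases hI with ⟨p, -, rfl⟩ | rfl <;> rcases hJ with ⟨q, -, rfl⟩ | rfl
    · rw [iE_dst, iE_dst] at h
      simp only [rE, List.cons.injEq, and_true, true_and] at h
      rw [h.1, h.2]
    · rw [iE_dst] at h
      simp [rE] at h
    · rw [iE_dst] at h
      simp [rE] at h
    · rfl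

theorem ok2 (m n : ℕ) : Ok lev 2 ⟨par2 m n, []⟩ := by
  refine ok_par ?_ ?_ ?_ ?_
  · intro I hI
    simp only [par2, List.mem_append, List.mem_map, List.mem_singleton] at hI
    rcases hI with ⟨p, -, rfl⟩ | rfl <;> rfl
  · intro I hI
    simp only [par2, List.mem_append, List.mem_map, List.mem_singleton] at hI
    rcases hI with ⟨p, -, rfl⟩ | rfl <;> simp [lev, rE]
  · intro I hI
    simp only [par2, List.mem_append, List.mem_map, List.mem_singleton] at hI
    rcases hI with ⟨p, -, rfl⟩ | rfl <;> simp [lev, rE]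
  · intro I hI J hJ h
    simp only [par2, List.mem_append, List.mem_map, List.mem_singleton] at hI hJ
    rcases hI with ⟨p, -, rfl⟩ | rfl <;> rcases hJ with ⟨q, -, rfl⟩ | rfl
    · simp only [rG, List.cons.injEq, and_true, true_and] at h
      rw [h.1, h.2.1, h.2.2]
    · simp [rG] at h
    · simp [rG] at h
    · rfl

theorem ok3 (m n : ℕ) : Ok lev 3 ⟨[], acc3 m n⟩ := by
  refine ok_acc ?_ ?_ ?_
  · intro p hp
    simp only [acc3, List.mem_map] at hp
    obtain ⟨q, -, rfl⟩ := hp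
    rfl
  · intro p hp s hs
    simp only [acc3, List.mem_map] at hp
    obtain ⟨q, -, rfl⟩ := hp
    simp only [List.mem_map] at hs
    obtain ⟨j, -, rfl⟩ := hs
    simp [lev, rG]
  · rw [acc3, List.map_map]
    refine ((List.nodup_range).product (List.nodup_range)).map ?_
    intro p q h
    simp only [Function.comp, rS, List.cons.injEq, and_true, true_and] at h
    exact Prod.ext h.1 h.2

theorem ok4 (m n : ℕ) : Ok lev 4 ⟨par4 m n, []⟩ := by
  refine ok_par ?_ ?_ ?_ ?_
  · intro I hI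
    simp only [par4, List.mem_map] at hI
    obtain ⟨p, -, rfl⟩ := hI
    rw [iK_dst]; rfl
  · intro I hI
    simp only [par4, List.mem_map] at hI
    obtain ⟨p, -, rfl⟩ := hI
    rw [iK_fst]; simp [lev]
  · intro I hI
    simp only [par4, List.mem_map] at hI
    obtain ⟨p, -, rfl⟩ := hI
    rw [iK_snd]; exact lev_ksrc _ _ _
  · intro I hI J hJ h
    simp only [par4, List.mem_map] at hI hJ
    obtain ⟨p, -, rfl⟩ := hI
    obtain ⟨q, -, rfl⟩ := hJ
    rw [iK_dst, iK_dst] at h
    rw [(rK_inj h).1, (rK_inj h).2]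

theorem ok5 (m n : ℕ) : Ok lev 5 ⟨par5 m n, []⟩ := by
  refine ok_par ?_ ?_ ?_ ?_
  · intro I hI
    simp only [par5, List.mem_map] at hI
    obtain ⟨p, -, rfl⟩ := hI
    rfl
  · intro I hI
    simp only [par5, List.mem_map] at hI
    obtain ⟨p, -, rfl⟩ := hI
    simp [lev, rK]
  · intro I hI
    simp only [par5, List.mem_map] at hI
    obtain ⟨p, -, rfl⟩ := hI
    simp [lev, rK]
  · intro I hI J hJ h
    simp only [par5, List.mem_map] at hI hJ
    obtain ⟨p, -, rfl⟩ := hI
    obtain ⟨q, -, rfl⟩ := hJ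
    rw [(rZ_inj h).1, (rZ_inj h).2]

theorem ok6 (m n : ℕ) : Ok lev 6 ⟨[], acc6 m n⟩ := by
  refine ok_acc ?_ ?_ ?_
  · intro p hp
    simp only [acc6, List.mem_map] at hp
    obtain ⟨q, -, rfl⟩ := hp
    rfl
  · intro p hp s hs
    simp only [acc6, List.mem_map] at hp
    obtain ⟨q, -, rfl⟩ := hp
    simp only [List.mem_map] at hs
    obtain ⟨j, -, rfl⟩ := hs
    simp [lev, rZ]
  · rw [acc6, List.map_map]
    refine (List.nodup_range).map ?_
    intro p q h
    simp only [Function.comp, rN, List.cons.injEq, and_true, true_and] at h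
    exact h

theorem ok7 (m n : ℕ) : Ok lev 7 ⟨par7 m n, []⟩ := by
  refine ok_par ?_ ?_ ?_ ?_
  · intro I hI
    simp only [par7, List.mem_map] at hI
    obtain ⟨p, -, rfl⟩ := hI
    rfl
  · intro I hI
    simp only [par7, List.mem_map] at hI
    obtain ⟨p, -, rfl⟩ := hI
    simp [lev, rK]
  · intro I hI
    simp only [par7, List.mem_map] at hI
    obtain ⟨p, -, rfl⟩ := hI
    simp [lev, rN]
  · intro I hI J hJ h
    simp only [par7, List.mem_map] at hI hJ
    obtain ⟨p, -, rfl⟩ := hI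
    obtain ⟨q, -, rfl⟩ := hJ
    rw [(rQ_inj h).1, (rQ_inj h).2]

theorem ok8 (m n : ℕ) : Ok lev 8 ⟨par8 m n, []⟩ := by
  refine ok_par ?_ ?_ ?_ ?_
  · intro I hI
    simp only [par8, List.mem_map] at hI
    obtain ⟨p, -, rfl⟩ := hI
    rfl
  · intro I hI
    simp only [par8, List.mem_map] at hI
    obtain ⟨p, -, rfl⟩ := hI
    simp [lev, rK]
  · intro I hI
    simp only [par8, List.mem_map] at hI
    obtain ⟨p, -, rfl⟩ := hI
    simp [lev, rQ]
  · intro I hI J hJ h
    simp only [par8, List.mem_map] at hI hJ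
    obtain ⟨p, -, rfl⟩ := hI
    obtain ⟨q, -, rfl⟩ := hJ
    rw [(rT_inj h).1, (rT_inj h).2.1, (rT_inj h).2.2]

theorem ok9 (m n : ℕ) : Ok lev 9 ⟨[], acc9 m n⟩ := by
  refine ok_acc ?_ ?_ ?_
  · intro p hp
    simp only [acc9, List.mem_map] at hp
    obtain ⟨q, -, rfl⟩ := hp
    rfl
  · intro p hp s hs
    simp only [acc9, List.mem_map] at hp
    obtain ⟨q, -, rfl⟩ := hp
    simp only [List.mem_map] at hs
    obtain ⟨j, -, rfl⟩ := hs
    simp [lev, rT]
  · rw [acc9, List.map_map]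
    refine ((nodup_cols m n).product (nodup_cols m n)).map ?_
    intro p q h
    simp only [Function.comp] at h
    exact Prod.ext (rU_inj h).1 (rU_inj h).2

theorem okAll (m n : ℕ) : OkAll lev 1 (layers m n) :=
  ⟨ok1 m n, ok2 m n, ok3 m n, ok4 m n, ok5 m n, ok6 m n, ok7 m n, ok8 m n, ok9 m n, trivial⟩

/-! ### The output -/

/-- an entry of the matrix -/
def iM (z : (ℕ × Cod) × ℕ) (y : (ℕ × Cod) × ℕ) : Instr :=
  ⟨Op.sub, [0, z.2, y.2], if z.1.2 = y.1.2 then [14] else [9],
    if z.1.1 = y.1.1 then [9] else rU z.1.2 y.1.2⟩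

/-- an entry of the right-hand side -/
def iR (z : (ℕ × Cod) × ℕ) : Instr := ⟨Op.add, [1, z.2], [9], if z.2 = 0 then [2] else [9]⟩

/-- the output -/
def outL (m n : ℕ) : List Instr :=
  ((idxL m n).zipIdx ×ˢ (idxL m n).zipIdx).map (fun p => iM p.1 p.2) ++
    (idxL m n).zipIdx.map fun z => iR z

/-- the program -/
def prog (m n : ℕ) : List Instr :=
  progs (layers m n) ++ (outL m n ++ clean ((progs (layers m n)).map Instr.dst))

end Pool.Agent.U780.RF
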