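import Mathlib

/-!
# The orthogonal projection along orthogonal rows, and balanced projections
-/

set_option autoImplicit false

namespace Pool.Agent.U780.RF

open Finset

section proj

variable {ρ γ : Type} [DecidableEq γ] (R : Finset ρ) (C : Finset γ) (K : ρ → γ → ℝ)

/-- squared length of a row -/
noncomputable def nu (i : ρ) : ℝ := ∑ c ∈ C, K i c * K i c

/-- the orthogonal projection onto the span of the rows, if they are orthogonal -/
noncomputable def QQ (a b : γ) : ℝ := ∑ i ∈ R, K i a * (K i b / nu C K i)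

/-- orthogonal rows different from zero -/
structure Orth : Prop where
  orth : ∀ i ∈ R, ∀ j ∈ R, i ≠ j → ∑ c ∈ C, K i c * K j c = 0
  pos : ∀ i ∈ R, nu C K i ≠ 0

variable {R C K}

theorem QQ_symm (a b : γ) : QQ R C K a b = QQ R C K b a := by
  unfold QQ
  exact Finset.sum_congr rfl fun i _ => by ring

theorem QQ_K (h : Orth R C K) (i : ρ) (hi : i ∈ R) (b : γ) :
    ∑ a ∈ C, K i a * QQ R C K a b = K i b := by
  classical
  unfold QQ
  calc ∑ a ∈ C, K i a * ∑ j ∈ R, K j a * (K j b / nu C K j)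
      = ∑ a ∈ C, ∑ j ∈ R, (K i a * K j a) * (K j b / nu C K j) := by
        refine Finset.sum_congr rfl fun a _ => ?_
        rw [Finset.mul_sum]
        exact Finset.sum_congr rfl fun j _ => by ring
    _ = ∑ j ∈ R, (∑ a ∈ C, K i a * K j a) * (K j b / nu C K j) := by
        rw [Finset.sum_comm]
        exact Finset.sum_congr rfl fun j _ => by rw [Finset.sum_mul]
    _ = (∑ a ∈ C, K i a * K i a) * (K i b / nu C K i) := by
        refine Finset.sum_eq_single i (fun j hj hne => ?_) (fun h' => absurd hi h')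
        rw [h.orth i hi j hj hne.symm, zero_mul]
    _ = K i b := mul_div_cancel₀ _ (h.pos i hi)

theorem QQ_mul (w : γ → ℝ) (a : γ) : ∑ b ∈ C, QQ R C K a b * w b =
    ∑ i ∈ R, K i a / nu C K i * ∑ b ∈ C, K i b * w b := by
  unfold QQ
  calc ∑ b ∈ C, (∑ i ∈ R, K i a * (K i b / nu C K i)) * w b
      = ∑ b ∈ C, ∑ i ∈ R, K i a / nu C K i * (K i b * w b) := by
        refine Finset.sum_congr rfl fun b _ => ?_
        rw [Finset.sum_mul]
        exact Finset.sum_congr rfl fun i _ => by ring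
    _ = _ := by
        rw [Finset.sum_comm]
        exact Finset.sum_congr rfl fun i _ => by rw [Finset.mul_sum]

theorem QQ_idem (h : Orth R C K) (a b : γ) :
    ∑ c ∈ C, QQ R C K a c * QQ R C K c b = QQ R C K a b := by
  rw [QQ_mul (fun c => QQ R C K c b) a]
  unfold QQ
  refine Finset.sum_congr rfl fun i hi => ?_
  have h1 := QQ_K h i hi b
  unfold QQ at h1
  rw [h1]
  ring

theorem QQ_zero (h : Orth R C K) (w : γ → ℝ) :
    (∀ a ∈ C, ∑ b ∈ C, QQ R C K a b * w b = 0) ↔ ∀ i ∈ R, ∑ b ∈ C, K i b * w b = 0 := by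
  constructor
  · intro h1 i hi
    calc ∑ b ∈ C, K i b * w b = ∑ b ∈ C, (∑ a ∈ C, K i a * QQ R C K a b) * w b :=
          Finset.sum_congr rfl fun b _ => by rw [QQ_K h i hi]
      _ = ∑ b ∈ C, ∑ a ∈ C, K i a * (QQ R C K a b * w b) := by
          refine Finset.sum_congr rfl fun b _ => ?_
          rw [Finset.sum_mul]
          exact Finset.sum_congr rfl fun a _ => by ring
      _ = ∑ a ∈ C, K i a * ∑ b ∈ C, QQ R C K a b * w b := by
          rw [Finset.sum_comm]
          exact Finset.sum_congr rfl fun a _ => by rw [Finset.mul_sum]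
      _ = 0 := Finset.sum_eq_zero fun a ha => by rw [h1 a ha, mul_zero]
  · intro h1 a _
    rw [QQ_mul]
    exact Finset.sum_eq_zero fun i hi => by rw [h1 i hi, mul_zero]

/-! ### The balanced projection -/

variable (R C K)

/-- half of the identity matrix -/
noncomputable def DD (a b : γ) : ℝ := if a = b then 1 / 2 else 0

/-- the balanced projection `(1/2) (1, R; R, 1)`, `R = 1 - 2 Q` -/
noncomputable def MM (z z' : ℕ × γ) : ℝ :=
  DD z.2 z'.2 - if z.1 = z'.1 then 0 else QQ R C K z.2 z'.2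

variable {R C K}

theorem DD_symm (a b : γ) : DD a b = DD b a := by
  unfold DD
  simp only [eq_comm]

theorem sum_DD_left (f : γ → ℝ) {a : γ} (ha : a ∈ C) :
    ∑ c ∈ C, DD a c * f c = f a / 2 := by
  rw [Finset.sum_eq_single a]
  · simp [DD]; ring
  · intro b _ hb
    simp [DD, hb.symm]
  · intro h; exact absurd ha h

theorem sum_DD_right (f : γ → ℝ) {a : γ} (ha : a ∈ C) :
    ∑ c ∈ C, f c * DD c a = f a / 2 := by
  rw [← sum_DD_left f ha]
  exact Finset.sum_congr rfl fun c _ => by rw [DD_symm, mul_comm]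

theorem MM_symm (z z' : ℕ × γ) : MM R C K z z' = MM R C K z' z := by
  unfold MM
  rw [DD_symm, QQ_symm]
  simp only [eq_comm]

theorem MM_diag (z : ℕ × γ) : MM R C K z z = 1 / 2 := by
  simp [MM, DD]

theorem sum_idx (f : ℕ × γ → ℝ) :
    ∑ z ∈ range 2 ×ˢ C, f z = ∑ c ∈ C, f (0, c) + ∑ c ∈ C, f (1, c) := by
  rw [Finset.sum_product, Finset.sum_range_succ, Finset.sum_range_succ, Finset.sum_range_zero,
    zero_add]

theorem MM_same (x : ℕ) (a b : γ) : MM R C K (x, a) (x, b) = DD a b := by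
  simp [MM]

theorem MM_diff {x y : ℕ} (h : x ≠ y) (a b : γ) :
    MM R C K (x, a) (y, b) = DD a b - QQ R C K a b := by
  simp [MM, h]

theorem MM_idem (h : Orth R C K) (z z' : ℕ × γ) (hz : z ∈ range 2 ×ˢ C)
    (hz' : z' ∈ range 2 ×ˢ C) :
    ∑ y ∈ range 2 ×ˢ C, MM R C K z y * MM R C K y z' = MM R C K z z' := by
  obtain ⟨x, a⟩ := z
  obtain ⟨x', b⟩ := z'
  rw [Finset.mem_product, Finset.mem_range] at hz hz'
  obtain ⟨hx, ha⟩ := hz
  obtain ⟨hx', hb⟩ := hz'
  dsimp only at hx ha hx' hb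
  have e1 : ∑ c ∈ C, DD a c * DD c b = DD a b / 2 := sum_DD_left (fun c => DD c b) ha
  have e2 : ∑ c ∈ C, DD a c * QQ R C K c b = QQ R C K a b / 2 :=
    sum_DD_left (fun c => QQ R C K c b) ha
  have e3 : ∑ c ∈ C, QQ R C K a c * DD c b = QQ R C K a b / 2 :=
    sum_DD_right (fun c => QQ R C K a c) hb
  have e4 := QQ_idem h a b
  rw [sum_idx]
  have s1 : ∑ c ∈ C, DD a c * (DD c b - QQ R C K c b) = DD a b / 2 - QQ R C K a b / 2 := by
    rw [← e1, ← e2, ← Finset.sum_sub_distrib]
    exact Finset.sum_congr rfl fun c _ => by ring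
  have s2 : ∑ c ∈ C, (DD a c - QQ R C K a c) * DD c b = DD a b / 2 - QQ R C K a b / 2 := by
    rw [← e1, ← e3, ← Finset.sum_sub_distrib]
    exact Finset.sum_congr rfl fun c _ => by ring
  have s3 : ∑ c ∈ C, (DD a c - QQ R C K a c) * (DD c b - QQ R C K c b) = DD a b / 2 := by
    have : ∑ c ∈ C, (DD a c - QQ R C K a c) * (DD c b - QQ R C K c b) =
        (∑ c ∈ C, DD a c * DD c b - ∑ c ∈ C, DD a c * QQ R C K c b) -
        (∑ c ∈ C, QQ R C K a c * DD c b - ∑ c ∈ C, QQ R C K a c * QQ R C K c b) := by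
      rw [← Finset.sum_sub_distrib, ← Finset.sum_sub_distrib, ← Finset.sum_sub_distrib]
      exact Finset.sum_congr rfl fun c _ => by ring
    rw [this, e1, e2, e3, e4]
    ring
  have n01 : (0 : ℕ) ≠ 1 := by norm_num
  have n10 : (1 : ℕ) ≠ 0 := by norm_num
  obtain rfl | rfl : x = 0 ∨ x = 1 := by omega
  · obtain rfl | rfl : x' = 0 ∨ x' = 1 := by omega
    · simp only [MM_same, MM_diff n01, MM_diff n10]
      rw [e1, s3]
      ring
    · simp only [MM_same, MM_diff n01, MM_diff n10]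
      rw [s1, s2]
      ring
  · obtain rfl | rfl : x' = 0 ∨ x' = 1 := by omega
    · simp only [MM_same, MM_diff n01, MM_diff n10]
      rw [s1, s2]
      ring
    · simp only [MM_same, MM_diff n01, MM_diff n10]
      rw [e1, s3]
      ring

theorem MM_solve (h : Orth R C K) (c₀ : γ) (hc₀ : c₀ ∈ C) :
    (∃ u : ℕ × γ → ℝ, ∀ z ∈ range 2 ×ˢ C,
      (if z = (0, c₀) then 1 else 0) ≤ ∑ y ∈ range 2 ×ˢ C, MM R C K z y * u y) ↔
    ∃ w : γ → ℝ, (∀ c ∈ C, 0 ≤ w c) ∧ 1 ≤ w c₀ ∧ ∀ i ∈ R, ∑ c ∈ C, K i c * w c = 0 := by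
  have n01 : (0 : ℕ) ≠ 1 := by norm_num
  have n10 : (1 : ℕ) ≠ 0 := by norm_num
  have m0 : ∀ c ∈ C, ((0, c) : ℕ × γ) ∈ range 2 ×ˢ C := fun c hc => by simp [hc]
  have m1 : ∀ c ∈ C, ((1, c) : ℕ × γ) ∈ range 2 ×ˢ C := fun c hc => by simp [hc]
  constructor
  · rintro ⟨u, hu⟩
    set v : ℕ × γ → ℝ := fun z => ∑ y ∈ range 2 ×ˢ C, MM R C K z y * u y with hv
    have hvM : ∀ z ∈ range 2 ×ˢ C, v z = ∑ y ∈ range 2 ×ˢ C, MM R C K z y * v y := by
      intro z hz
      rw [hv]
      symm
      calc ∑ y ∈ range 2 ×ˢ C, MM R C K z y * ∑ x ∈ range 2 ×ˢ C, MM R C K y x * u x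
          = ∑ y ∈ range 2 ×ˢ C, ∑ x ∈ range 2 ×ˢ C,
              (MM R C K z y * MM R C K y x) * u x := by
            refine Finset.sum_congr rfl fun y _ => ?_
            rw [Finset.mul_sum]
            exact Finset.sum_congr rfl fun x _ => by ring
        _ = ∑ x ∈ range 2 ×ˢ C, (∑ y ∈ range 2 ×ˢ C,
              MM R C K z y * MM R C K y x) * u x := by
            rw [Finset.sum_comm]
            exact Finset.sum_congr rfl fun x _ => by rw [Finset.sum_mul]
        _ = _ := Finset.sum_congr rfl fun x hx => by rw [MM_idem h z x hz hx]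
    have g0 : ∀ a ∈ C, v (0, a) = v (1, a) - 2 * ∑ c ∈ C, QQ R C K a c * v (1, c) := by
      intro a ha
      have h1 := hvM _ (m0 a ha)
      rw [sum_idx] at h1
      simp only [MM_same, MM_diff n01] at h1
      rw [sum_DD_left (fun c => v (0, c)) ha] at h1
      have h2 : ∑ c ∈ C, (DD a c - QQ R C K a c) * v (1, c) =
          v (1, a) / 2 - ∑ c ∈ C, QQ R C K a c * v (1, c) := by
        rw [← sum_DD_left (fun c => v (1, c)) ha, ← Finset.sum_sub_distrib]
        exact Finset.sum_congr rfl fun c _ => by ring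
      rw [h2] at h1
      linarith
    have g1 : ∀ a ∈ C, v (1, a) = v (0, a) - 2 * ∑ c ∈ C, QQ R C K a c * v (0, c) := by
      intro a ha
      have h1 := hvM _ (m1 a ha)
      rw [sum_idx] at h1
      simp only [MM_same, MM_diff n10] at h1
      rw [sum_DD_left (fun c => v (1, c)) ha] at h1
      have h2 : ∑ c ∈ C, (DD a c - QQ R C K a c) * v (0, c) =
          v (0, a) / 2 - ∑ c ∈ C, QQ R C K a c * v (0, c) := by
        rw [← sum_DD_left (fun c => v (0, c)) ha, ← Finset.sum_sub_distrib]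
        exact Finset.sum_congr rfl fun c _ => by ring
      rw [h2] at h1
      linarith
    have nn : ∀ z ∈ range 2 ×ˢ C, 0 ≤ v z := by
      intro z hz
      refine le_trans ?_ (hu z hz)
      split_ifs <;> norm_num
    refine ⟨fun c => v (0, c) + v (1, c), fun c hc => add_nonneg (nn _ (m0 c hc)) (nn _ (m1 c hc)),
      ?_, ?_⟩
    · have h1 := hu _ (m0 c₀ hc₀)
      rw [if_pos rfl] at h1
      have h2 := nn _ (m1 c₀ hc₀)
      show 1 ≤ v (0, c₀) + v (1, c₀)
      have h3 : 1 ≤ v (0, c₀) := h1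
      linarith
    · refine (QQ_zero h _).1 fun a ha => ?_
      have h1 := g0 a ha
      have h2 := g1 a ha
      have h3 : ∑ b ∈ C, QQ R C K a b * (v (0, b) + v (1, b)) =
          ∑ b ∈ C, QQ R C K a b * v (0, b) + ∑ b ∈ C, QQ R C K a b * v (1, b) := by
        rw [← Finset.sum_add_distrib]
        exact Finset.sum_congr rfl fun c _ => by ring
      rw [h3]
      linarith
  · rintro ⟨w, hw, hw0, hK⟩
    have hQ := (QQ_zero h w).2 hK
    refine ⟨fun z => w z.2, ?_⟩
    rintro ⟨x, a⟩ hz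
    rw [Finset.mem_product, Finset.mem_range] at hz
    obtain ⟨hx, ha⟩ := hz
    dsimp only at hx ha
    have h2 : ∑ c ∈ C, (DD a c - QQ R C K a c) * w c = w a / 2 := by
      have : ∑ c ∈ C, (DD a c - QQ R C K a c) * w c =
          ∑ c ∈ C, DD a c * w c - ∑ c ∈ C, QQ R C K a c * w c := by
        rw [← Finset.sum_sub_distrib]
        exact Finset.sum_congr rfl fun c _ => by ring
      rw [this, sum_DD_left w ha, hQ a ha, sub_zero]
    have h3 : ∑ y ∈ range 2 ×ˢ C, MM R C K (x, a) y * w y.2 = w a := by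
      rw [sum_idx]
      obtain rfl | rfl : x = 0 ∨ x = 1 := by omega
      · simp only [MM_same, MM_diff n01]
        rw [sum_DD_left w ha, h2]
        ring
      · simp only [MM_same, MM_diff n10]
        rw [sum_DD_left w ha, h2]
        ring
    rw [h3]
    split_ifs with he
    · have : a = c₀ := (Prod.ext_iff.1 he).2
      rw [this]
      exact hw0
    · exact hw a ha

end proj

/-! ### Tucker's theorem -/

end Pool.Agent.U780.RF
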