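import Pool.Agent.U17.PN.Len

/-!
# Straight-line programs in layers

A layer consists of simultaneous assignments and of sums, the operands of which have a lower level
than the targets. After a program in layers, the final store satisfies the equations expressed by
the instructions. Divisions are allowed if the divisors do not vanish.
-/

set_option autoImplicit false

namespace Pool.Agent.U780.RF

open Pool.Agent.H558R2 Pool.Agent.H622R3.SM Pool.Agent.U17.PN

/-- all divisors are different from zero during the execution -/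
def NZ : List Instr → (Reg → ℝ) → Prop
  | [], _ => True
  | I :: P, ρ => (I.op = Op.div → ρ I.snd ≠ 0) ∧ NZ P (Function.update ρ I.dst (ival ρ I))

theorem exec_NZ (P : List Instr) (ρ : Reg → ℝ) (h : NZ P ρ) :
    exec P ρ = some (fin P ρ, outs P ρ) := by
  induction P generalizing ρ with
  | nil => rfl
  | cons I P ih =>
    rw [exec, if_neg (fun h' => h.1 h'.1 h'.2)]
    have h2 := ih _ h.2
    unfold ival at h2
    rw [h2]
    rfl

theorem NZ_append (P Q : List Instr) (ρ : Reg → ℝ) :
    NZ (P ++ Q) ρ ↔ NZ P ρ ∧ NZ Q (fin P ρ) := by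
  induction P generalizing ρ with
  | nil => simp [NZ, fin]
  | cons I P ih =>
    show (_ ∧ NZ (P ++ Q) _) ↔ (_ ∧ NZ P _) ∧ NZ Q (fin P _)
    rw [ih, and_assoc]

theorem NZ_of_op (P : List Instr) (h : ∀ I ∈ P, I.op ≠ Op.div) (ρ : Reg → ℝ) : NZ P ρ := by
  induction P generalizing ρ with
  | nil => trivial
  | cons I P ih =>
    exact ⟨fun h' => absurd h' (h I (List.mem_cons_self ..)),
      ih (fun J hJ => h J (List.mem_cons_of_mem _ hJ)) _⟩

theorem NZ_par (P : List Instr) (hP : Par P) (ρ : Reg → ℝ)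
    (h : ∀ I ∈ P, I.op = Op.div → ρ I.snd ≠ 0) : NZ P ρ := by
  induction P generalizing ρ with
  | nil => trivial
  | cons I P ih =>
    refine ⟨h I (List.mem_cons_self ..), ih hP.tail _ fun J hJ hd => ?_⟩
    rw [Function.update_of_ne
      (Ne.symm (hP.snd I (List.mem_cons_self ..) J (List.mem_cons_of_mem _ hJ)))]
    exact h J (List.mem_cons_of_mem _ hJ) hd

theorem run_pre' (O : Set (List Bool)) (P : List Instr) 
    (α : List Outcome → List Instr × Test) (k : ℕ) (ρ : Reg → ℝ) (hP : NZ P ρ)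
    (q : Bool × List ℝ × ℕ)
    (hq : run O α k [] (fin P ρ) = some q) :
    run O (pre P α) k [] ρ = some (q.1, outs P ρ ++ q.2.1, P.length + q.2.2) := by
  cases k with
  | zero => exact absurd hq (by simp [run])
  | succ k =>
    rw [run] at hq ⊢
    have h1 : (pre P α) [] = (P ++ (α []).1, (α []).2) := if_pos rfl
    rw [h1]
    simp only
    rw [exec_append, exec_NZ P ρ hP]
    simp only [Option.bind_some]
    cases he : exec (α []).1 (fin P ρ) with
    | none => rw [he] at hq; exact absurd hq (by simp)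
    | some r =>
      rw [he] at hq
      simp only [Option.bind_some, Option.map_some] at hq ⊢
      cases ht : (α []).2 with
      | answer a =>
        rw [ht] at hq
        simp only [Option.some.injEq] at hq ⊢
        rw [← hq]
        simp [outs_length]
      | sign x =>
        rw [ht] at hq
        simp only [Option.map_eq_some_iff] at hq ⊢
        obtain ⟨q', h2, h3⟩ := hq
        refine ⟨q', ?_, ?_⟩
        · rw [run_congr O (pre P α) α (fun h hh => if_neg hh) k _ _ (by simp)]
          exact h2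
        · rw [← h3]
          simp [outs_length, Nat.add_assoc]
      | ask w =>
        rw [ht] at hq
        simp only [Option.map_eq_some_iff] at hq ⊢
        obtain ⟨q', h2, h3⟩ := hq
        refine ⟨q', ?_, ?_⟩
        · rw [run_congr O (pre P α) α (fun h hh => if_neg hh) k _ _ (by simp)]
          exact h2
        · rw [← h3]
          simp [outs_length, Nat.add_assoc]

/-! ### Sums -/

/-- `p.1 := p.1 + (sum of the registers in p.2)`, for the members `p` of the list -/
def accProg (L : List (Reg × List Reg)) : List Instr :=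
  L.flatMap fun p => p.2.map fun s => ⟨Op.add, p.1, p.1, s⟩

/-- the targets are different, and they are not used as operands -/
structure AccOk (L : List (Reg × List Reg)) : Prop where
  nd : (L.map Prod.fst).Nodup
  src : ∀ p ∈ L, ∀ q ∈ L, p.1 ∉ q.2

theorem AccOk.tail {p : Reg × List Reg} {L : List (Reg × List Reg)} (h : AccOk (p :: L)) :
    AccOk L :=
  ⟨(List.nodup_cons.1 h.nd).2, fun q hq r hr =>
    h.src q (List.mem_cons_of_mem _ hq) r (List.mem_cons_of_mem _ hr)⟩

theorem accProg_cons (p : Reg × List Reg) (L : List (Reg × List Reg)) :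
    accProg (p :: L) = (p.2.map fun s => ⟨Op.add, p.1, p.1, s⟩) ++ accProg L := rfl

theorem fin_accProg_of_not (L : List (Reg × List Reg)) (x : Reg) (h : ∀ p ∈ L, p.1 ≠ x)
    (ρ : Reg → ℝ) : fin (accProg L) ρ x = ρ x := by
  refine fin_of_not _ _ (fun I hI => ?_) _
  unfold accProg at hI
  rw [List.mem_flatMap] at hI
  obtain ⟨p, hp, hI⟩ := hI
  rw [List.mem_map] at hI
  obtain ⟨s, -, rfl⟩ := hI
  exact h p hp

theorem fin_accProg (L : List (Reg × List Reg)) (h : AccOk L) (ρ : Reg → ℝ)
    (p : Reg × List Reg) (hp : p ∈ L) : fin (accProg L) ρ p.1 = ρ p.1 + (p.2.map ρ).sum := by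
  induction L generalizing ρ with
  | nil => exact absurd hp (by simp)
  | cons q L ih =>
    rw [accProg_cons, fin_append]
    rcases List.mem_cons.1 hp with rfl | hp
    · rw [fin_accProg_of_not]
      · exact fin_acc _ _ (h.src p (List.mem_cons_self ..) p (List.mem_cons_self ..)) _
      · intro r hr he
        exact (List.nodup_cons.1 h.nd).1 (he ▸ List.mem_map_of_mem (f := Prod.fst) hr)
    · have hne : q.1 ≠ p.1 := fun he => (List.nodup_cons.1 h.nd).1
        (he ▸ List.mem_map_of_mem (f := Prod.fst) hp)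
      rw [ih h.tail _ hp]
      have h1 : ∀ x, x ≠ q.1 →
          fin (q.2.map fun s => (⟨Op.add, q.1, q.1, s⟩ : Instr)) ρ x = ρ x := by
        intro x hx
        refine fin_of_not _ _ (fun I hI => ?_) _
        rw [List.mem_map] at hI
        obtain ⟨s, -, rfl⟩ := hI
        exact hx.symm
      rw [h1 _ hne.symm]
      congr 2
      refine List.map_congr_left fun s hs => h1 _ ?_
      rintro rfl
      exact h.src q (List.mem_cons_self ..) p (List.mem_cons_of_mem _ hp) hs

theorem outs_accProg (L : List (Reg × List Reg)) (h : AccOk L) (ρ : Reg → ℝ) (v : ℝ)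
    (hv : v ∈ outs (accProg L) ρ) :
    ∃ p ∈ L, ∃ L' L'', p.2 = L' ++ L'' ∧ v = ρ p.1 + (L'.map ρ).sum := by
  induction L generalizing ρ with
  | nil => exact absurd hv (by simp [accProg, outs])
  | cons q L ih =>
    rw [accProg_cons, outs_append, List.mem_append] at hv
    rcases hv with hv | hv
    · obtain ⟨L', L'', h1, h2⟩ := outs_acc _ _
        (h.src q (List.mem_cons_self ..) q (List.mem_cons_self ..)) _ _ hv
      exact ⟨q, List.mem_cons_self .., L', L'', h1, h2⟩
    · obtain ⟨p, hp, L', L'', h1, h2⟩ := ih h.tail _ hv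
      refine ⟨p, List.mem_cons_of_mem _ hp, L', L'', h1, ?_⟩
      have hne : q.1 ≠ p.1 := fun he => (List.nodup_cons.1 h.nd).1
        (he ▸ List.mem_map_of_mem (f := Prod.fst) hp)
      have h3 : ∀ x, x ≠ q.1 →
          fin (q.2.map fun s => (⟨Op.add, q.1, q.1, s⟩ : Instr)) ρ x = ρ x := by
        intro x hx
        refine fin_of_not _ _ (fun I hI => ?_) _
        rw [List.mem_map] at hI
        obtain ⟨s, -, rfl⟩ := hI
        exact hx.symm
      rw [h2, h3 _ hne.symm]
      congr 2
      refine List.map_congr_left fun s hs => h3 _ ?_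
      rintro rfl
      exact h.src q (List.mem_cons_self ..) p (List.mem_cons_of_mem _ hp)
        (by rw [h1]; exact List.mem_append_left _ hs)

/-! ### Layers -/

/-- a layer: assignments and sums -/
structure Lay : Type where
  /-- assignments -/
  par : List Instr
  /-- sums -/
  acc : List (Reg × List Reg)

/-- the program of a layer -/
def Lay.prog (l : Lay) : List Instr := l.par ++ accProg l.acc

/-- the targets have level `t` and the operands have smaller levels -/
structure Ok (lev : Reg → ℕ) (t : ℕ) (l : Lay) : Prop where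
  pdst : ∀ I ∈ l.par, lev I.dst = t
  pfst : ∀ I ∈ l.par, lev I.fst < t
  psnd : ∀ I ∈ l.par, lev I.snd < t
  pinj : ∀ I ∈ l.par, ∀ J ∈ l.par, I.dst = J.dst → I = J
  adst : ∀ p ∈ l.acc, lev p.1 = t
  asrc : ∀ p ∈ l.acc, ∀ s ∈ p.2, lev s < t
  and : (l.acc.map Prod.fst).Nodup
  disj : ∀ I ∈ l.par, ∀ p ∈ l.acc, I.dst ≠ p.1

variable {lev : Reg → ℕ} {t : ℕ} {l : Lay}

theorem Ok.toPar (h : Ok lev t l) : Par l.par := by
  refine ⟨fun I hI J hJ he => ?_, fun I hI J hJ he => ?_, h.pinj⟩
  · have h1 := h.pdst I hI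
    have h2 := h.pfst J hJ
    rw [← he] at h2
    omega
  · have h1 := h.pdst I hI
    have h2 := h.psnd J hJ
    rw [← he] at h2
    omega

theorem Ok.toAcc (h : Ok lev t l) : AccOk l.acc := by
  refine ⟨h.and, fun p hp q hq hs => ?_⟩
  have h1 := h.adst p hp
  have h2 := h.asrc q hq _ hs
  omega

theorem Ok.keep (h : Ok lev t l) (ρ : Reg → ℝ) (r : Reg) (hr : lev r ≠ t) :
    fin l.prog ρ r = ρ r := by
  unfold Lay.prog
  rw [fin_append, fin_accProg_of_not, fin_of_not]
  · rintro I hI rfl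
    exact hr (h.pdst I hI)
  · rintro p hp rfl
    exact hr (h.adst p hp)

theorem Lay.keep (l : Lay) (ρ : Reg → ℝ) (r : Reg) (h1 : ∀ I ∈ l.par, I.dst ≠ r)
    (h2 : ∀ p ∈ l.acc, p.1 ≠ r) : fin l.prog ρ r = ρ r := by
  unfold Lay.prog
  rw [fin_append, fin_accProg_of_not _ _ h2, fin_of_not _ _ h1]

theorem Ok.par (h : Ok lev t l) (ρ : Reg → ℝ) (I : Instr) (hI : I ∈ l.par) :
    fin l.prog ρ I.dst = ival ρ I := by
  unfold Lay.prog
  rw [fin_append, fin_accProg_of_not, fin_par _ h.toPar _ _ hI]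
  intro p hp
  exact (h.disj I hI p hp).symm

theorem Ok.keepPar (h : Ok lev t l) (ρ : Reg → ℝ) (p : Reg × List Reg) (hp : p ∈ l.acc) :
    fin l.par ρ p.1 = ρ p.1 ∧ p.2.map (fin l.par ρ) = p.2.map ρ := by
  constructor
  · exact fin_of_not _ _ (fun I hI => h.disj I hI p hp) _
  · refine List.map_congr_left fun s hs => fin_of_not _ _ (fun I hI he => ?_) _
    have h1 := h.pdst I hI
    have h2 := h.asrc p hp s hs
    rw [he] at h1
    omega

theorem Ok.acc (h : Ok lev t l) (ρ : Reg → ℝ) (p : Reg × List Reg) (hp : p ∈ l.acc) :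
    fin l.prog ρ p.1 = ρ p.1 + (p.2.map ρ).sum := by
  unfold Lay.prog
  rw [fin_append, fin_accProg _ h.toAcc _ _ hp, (h.keepPar ρ p hp).1, (h.keepPar ρ p hp).2]

theorem Ok.outsP (h : Ok lev t l) (ρ : Reg → ℝ) (v : ℝ) (hv : v ∈ outs l.prog ρ) :
    (∃ I ∈ l.par, v = ival ρ I) ∨
      ∃ p ∈ l.acc, ∃ L' L'', p.2 = L' ++ L'' ∧ v = ρ p.1 + (L'.map ρ).sum := by
  unfold Lay.prog at hv
  rw [outs_append, List.mem_append] at hv
  rcases hv with hv | hv
  · exact Or.inl (outs_par _ h.toPar _ _ hv)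
  · obtain ⟨p, hp, L', L'', h1, h2⟩ := outs_accProg _ h.toAcc _ _ hv
    refine Or.inr ⟨p, hp, L', L'', h1, ?_⟩
    have h3 := (h.keepPar ρ p hp).2
    rw [h1, List.map_append, List.map_append] at h3
    have h4 := List.append_inj_left h3 (by simp)
    rw [h2, (h.keepPar ρ p hp).1, h4]

theorem Ok.nz (h : Ok lev t l) (ρ : Reg → ℝ) (hd : ∀ I ∈ l.par, I.op = Op.div → ρ I.snd ≠ 0) :
    NZ l.prog ρ := by
  unfold Lay.prog
  rw [NZ_append]
  refine ⟨NZ_par _ h.toPar _ hd, NZ_of_op _ (fun I hI => ?_) _⟩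
  unfold accProg at hI
  rw [List.mem_flatMap] at hI
  obtain ⟨p, hp, hI⟩ := hI
  rw [List.mem_map] at hI
  obtain ⟨s, -, rfl⟩ := hI
  exact fun h => Op.noConfusion h

/-- the program of a list of layers -/
def progs (Ls : List Lay) : List Instr := Ls.flatMap Lay.prog

theorem progs_cons (l : Lay) (Ls : List Lay) : progs (l :: Ls) = l.prog ++ progs Ls := rfl

/-- the layers have the levels `t`, `t + 1`, … -/
def OkAll (lev : Reg → ℕ) : ℕ → List Lay → Prop
  | _, [] => True
  | t, l :: Ls => Ok lev t l ∧ OkAll lev (t + 1) Ls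

theorem OkAll.ge {Ls : List Lay} (h : OkAll lev t Ls) : ∀ l ∈ Ls,
    (∀ I ∈ l.par, t ≤ lev I.dst) ∧ (∀ p ∈ l.acc, t ≤ lev p.1) := by
  induction Ls generalizing t with
  | nil => intro l hl; exact absurd hl (by simp)
  | cons l' Ls ih =>
    intro l hl
    rcases List.mem_cons.1 hl with rfl | hl
    · exact ⟨fun I hI => (h.1.pdst I hI).ge, fun p hp => (h.1.adst p hp).ge⟩
    · obtain ⟨h1, h2⟩ := ih h.2 l hl
      exact ⟨fun I hI => (Nat.le_succ t).trans (h1 I hI), fun p hp =>
        (Nat.le_succ t).trans (h2 p hp)⟩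

theorem OkAll.keep {Ls : List Lay} (h : OkAll lev t Ls) (ρ : Reg → ℝ) (r : Reg)
    (hr : lev r < t) : fin (progs Ls) ρ r = ρ r := by
  induction Ls generalizing t ρ with
  | nil => rfl
  | cons l Ls ih =>
    rw [progs_cons, fin_append, ih h.2 _ (by omega), h.1.keep _ _ (by omega)]

theorem keep_of_not {Ls : List Lay} (ρ : Reg → ℝ) (r : Reg)
    (h1 : ∀ l ∈ Ls, ∀ I ∈ l.par, I.dst ≠ r) (h2 : ∀ l ∈ Ls, ∀ p ∈ l.acc, p.1 ≠ r) :
    fin (progs Ls) ρ r = ρ r := by
  induction Ls generalizing ρ with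
  | nil => rfl
  | cons l Ls ih =>
    rw [progs_cons, fin_append, ih _ (fun l hl => h1 l (List.mem_cons_of_mem _ hl))
      (fun l hl => h2 l (List.mem_cons_of_mem _ hl)),
      l.keep _ _ (h1 l (List.mem_cons_self ..)) (h2 l (List.mem_cons_self ..))]

theorem OkAll.par {Ls : List Lay} (h : OkAll lev t Ls) (ρ : Reg → ℝ) :
    ∀ l ∈ Ls, ∀ I ∈ l.par, fin (progs Ls) ρ I.dst = ival (fin (progs Ls) ρ) I := by
  induction Ls generalizing t ρ with
  | nil => intro l hl; exact absurd hl (by simp)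
  | cons l' Ls ih =>
    intro l hl I hI
    rw [progs_cons, fin_append]
    rcases List.mem_cons.1 hl with rfl | hl
    · rw [h.2.keep _ _ (by rw [h.1.pdst I hI]; omega), h.1.par _ _ hI]
      have hf := h.1.pfst I hI
      have hs := h.1.psnd I hI
      exact ival_congr _ _ _ (by rw [h.2.keep _ _ (by omega), h.1.keep _ _ (by omega)])
        (by rw [h.2.keep _ _ (by omega), h.1.keep _ _ (by omega)])
    · exact ih h.2 _ l hl I hI

theorem OkAll.acc {Ls : List Lay} (h : OkAll lev t Ls) (ρ : Reg → ℝ) :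
    ∀ l ∈ Ls, ∀ p ∈ l.acc,
      fin (progs Ls) ρ p.1 = ρ p.1 + (p.2.map (fin (progs Ls) ρ)).sum := by
  induction Ls generalizing t ρ with
  | nil => intro l hl; exact absurd hl (by simp)
  | cons l' Ls ih =>
    intro l hl p hp
    rw [progs_cons, fin_append]
    rcases List.mem_cons.1 hl with rfl | hl
    · rw [h.2.keep _ _ (by rw [h.1.adst p hp]; omega), h.1.acc _ _ hp]
      congr 2
      refine List.map_congr_left fun s hs => ?_
      have hs' := h.1.asrc p hp s hs
      rw [h.2.keep _ _ (by omega), h.1.keep _ _ (by omega)]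
    · rw [ih h.2 _ l hl p hp]
      congr 1
      have h1 := (h.2.ge l hl).2 p hp
      exact h.1.keep _ _ (by omega)

theorem OkAll.nz {Ls : List Lay} (h : OkAll lev t Ls) (ρ : Reg → ℝ)
    (hd : ∀ l ∈ Ls, ∀ I ∈ l.par, I.op = Op.div → fin (progs Ls) ρ I.snd ≠ 0) :
    NZ (progs Ls) ρ := by
  induction Ls generalizing t ρ with
  | nil => trivial
  | cons l' Ls ih =>
    rw [progs_cons] at hd ⊢
    rw [fin_append] at hd
    rw [NZ_append]
    refine ⟨h.1.nz _ fun I hI ho => ?_, ih h.2 _ fun l hl I hI ho =>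
      hd l (List.mem_cons_of_mem _ hl) I hI ho⟩
    have h1 := hd l' (List.mem_cons_self ..) I hI ho
    have hs := h.1.psnd I hI
    rwa [h.2.keep _ _ (by omega), h.1.keep _ _ (by omega)] at h1

/-! ### Lengths -/

theorem hN_pos (q : ℚ) : 1 ≤ hN q := by
  unfold hN
  have := q.den_pos
  omega

theorem hN_quot (p q : ℚ) : hN (p / q) ≤ hN p * hN q := by
  by_cases hq0 : q = 0
  · subst hq0
    rw [div_zero]
    have h1 : hN (0 : ℚ) = 1 := by simp [hN]
    rw [h1]
    have := hN_pos p; omega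
  have hp : (p.den : ℚ) ≠ 0 := by exact_mod_cast p.den_ne_zero
  have hq : (q.den : ℚ) ≠ 0 := by exact_mod_cast q.den_ne_zero
  have hn : q.num ≠ 0 := Rat.num_ne_zero.2 hq0
  have hn' : (q.num : ℚ) ≠ 0 := by exact_mod_cast hn
  have h1 : p / q = ((p.num * q.den : ℤ) : ℚ) / ((p.den * q.num : ℤ) : ℚ) := by
    push_cast
    rw [div_eq_div_iff hq0 (mul_ne_zero hp hn')]
    have e1 : (p.num : ℚ) = p * p.den := (Rat.mul_den_eq_num p).symm
    have e2 : (q.num : ℚ) = q * q.den := (Rat.mul_den_eq_num q).symm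
    rw [e1, e2]
    ring
  have h2 := hN_div (p.num * q.den) (p.den * q.num) (by
    exact mul_ne_zero (by exact_mod_cast p.den_ne_zero) hn)
  rw [← h1] at h2
  refine h2.trans ?_
  rw [Int.natAbs_mul, Int.natAbs_mul, Int.natAbs_natCast, Int.natAbs_natCast]
  unfold hN
  nlinarith [Nat.zero_le (p.num.natAbs * q.num.natAbs), Nat.zero_le (p.den * q.den)]

theorem RP.div {E E' : ℕ} {x y : ℝ} (hx : RP E x) (hy : RP E' y) : RP (E + E') (x / y) := by
  obtain ⟨q, h1, h2⟩ := hx
  obtain ⟨q', h3, h4⟩ := hy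
  refine ⟨q / q', by rw [← h1, ← h3]; push_cast; rfl, (hN_quot q q').trans ?_⟩
  rw [pow_add]
  exact Nat.mul_le_mul h2 h4

theorem RP_ival {E : ℕ} {ρ : Reg → ℝ} (h : ∀ r, RP E (ρ r)) (I : Instr) :
    RP (2 * E) (ival ρ I) := by
  have e : 2 * E = E + E := by ring
  rw [e]
  unfold ival
  cases I.op with
  | add => exact (h _).add (h _)
  | sub => exact (h _).sub (h _)
  | mul => exact (h _).mul (h _)
  | div => exact RP.div (h _) (h _)

theorem RP_acc {E S : ℕ} {ρ : Reg → ℝ} (h : ∀ r, RP E (ρ r)) (x : Reg) (L : List Reg)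
    (hL : L.length + 1 ≤ S) : RP (S * E) (ρ x + (L.map ρ).sum) := by
  have h1 : RP ((L.map ρ).length * E) (L.map ρ).sum := RP.sum _ (by
    intro y hy
    rw [List.mem_map] at hy
    obtain ⟨s, -, rfl⟩ := hy
    exact h s)
  rw [List.length_map] at h1
  refine ((h x).add h1).mono ?_
  calc E + L.length * E = (L.length + 1) * E := by ring
    _ ≤ S * E := Nat.mul_le_mul_right _ hL

theorem Ok.rp {E S : ℕ} (h : Ok lev t l) (ρ : Reg → ℝ) (hρ : ∀ r, RP E (ρ r)) (hS : 2 ≤ S)
    (hl : ∀ p ∈ l.acc, p.2.length + 1 ≤ S) :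
    (∀ v ∈ outs l.prog ρ, RP (S * E) v) ∧ ∀ r, RP (S * E) (fin l.prog ρ r) := by
  have h2 : 2 * E ≤ S * E := Nat.mul_le_mul_right _ hS
  constructor
  · intro v hv
    rcases h.outsP ρ v hv with ⟨I, -, rfl⟩ | ⟨p, hp, L', L'', h1, rfl⟩
    · exact (RP_ival hρ I).mono h2
    · refine RP_acc hρ _ _ (le_trans ?_ (hl p hp))
      rw [h1, List.length_append]
      omega
  · intro r
    by_cases h3 : ∃ I ∈ l.par, I.dst = r
    · obtain ⟨I, hI, rfl⟩ := h3
      rw [h.par _ _ hI]
      exact (RP_ival hρ I).mono h2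
    · by_cases h4 : ∃ p ∈ l.acc, p.1 = r
      · obtain ⟨p, hp, rfl⟩ := h4
        rw [h.acc _ _ hp]
        exact RP_acc hρ _ _ (hl p hp)
      · push Not at h3 h4
        rw [l.keep _ _ h3 h4]
        exact (hρ r).mono (by
          calc E = 1 * E := (one_mul E).symm
            _ ≤ S * E := Nat.mul_le_mul_right _ (by omega))

theorem OkAll.rp {S : ℕ} {Ls : List Lay} (h : OkAll lev t Ls) (hS : 2 ≤ S)
    (hl : ∀ l ∈ Ls, ∀ p ∈ l.acc, p.2.length + 1 ≤ S) (E : ℕ) (ρ : Reg → ℝ)
    (hρ : ∀ r, RP E (ρ r)) :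
    (∀ v ∈ outs (progs Ls) ρ, RP (S ^ Ls.length * E) v) ∧
      ∀ r, RP (S ^ Ls.length * E) (fin (progs Ls) ρ r) := by
  induction Ls generalizing t ρ E with
  | nil =>
    refine ⟨fun v hv => absurd hv (by simp [progs, outs]), fun r => ?_⟩
    simpa [progs, fin] using hρ r
  | cons l Ls ih =>
    obtain ⟨h1, h2⟩ := h.1.rp ρ hρ hS (hl l (List.mem_cons_self ..))
    obtain ⟨h3, h4⟩ := ih h.2 (fun l hl' => hl l (List.mem_cons_of_mem _ hl')) (S * E)
      (fin l.prog ρ) h2
    have e : S ^ (l :: Ls).length * E = S ^ Ls.length * (S * E) := by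
      rw [List.length_cons, pow_succ]
      ring
    rw [progs_cons, outs_append, fin_append, e]
    refine ⟨fun v hv => ?_, h4⟩
    rw [List.mem_append] at hv
    rcases hv with hv | hv
    · refine (h1 v hv).mono ?_
      calc S * E = 1 * (S * E) := (one_mul _).symm
        _ ≤ S ^ Ls.length * (S * E) :=
          Nat.mul_le_mul_right _ (Nat.one_le_pow _ _ (by omega))
    · exact h3 v hv

/-! ### Cleaning -/

/-- set registers to zero -/
def clean (L : List Reg) : List Instr := L.map fun r => ⟨Op.sub, r, r, r⟩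

theorem fin_clean_of_not (L : List Reg) (ρ : Reg → ℝ) (r : Reg) (hr : r ∉ L) :
    fin (clean L) ρ r = ρ r := by
  refine fin_of_not _ _ (fun I hI => ?_) _
  unfold clean at hI
  rw [List.mem_map] at hI
  obtain ⟨s, hs, rfl⟩ := hI
  rintro rfl
  exact hr hs

theorem fin_clean (L : List Reg) (ρ : Reg → ℝ) (r : Reg) (hr : r ∈ L ∨ ρ r = 0) :
    fin (clean L) ρ r = 0 := by
  induction L generalizing ρ with
  | nil =>
    rcases hr with hr | hr
    · exact absurd hr (by simp)
    · exact hr
  | cons s L ih =>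
    show fin (clean L) (Function.update ρ s (ρ s - ρ s)) r = 0
    refine ih _ ?_
    by_cases hs : r = s
    · subst hs
      exact Or.inr (by rw [Function.update_self, sub_self])
    · rcases hr with hr | hr
      · rcases List.mem_cons.1 hr with hr | hr
        · exact absurd hr hs
        · exact Or.inl hr
      · exact Or.inr (by rw [Function.update_of_ne hs]; exact hr)

theorem outs_clean (L : List Reg) (ρ : Reg → ℝ) (v : ℝ) (hv : v ∈ outs (clean L) ρ) :
    v = 0 := by
  induction L generalizing ρ with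
  | nil => exact absurd hv (by simp [clean, outs])
  | cons s L ih =>
    have hv' : v ∈ (ρ s - ρ s) :: outs (clean L) (Function.update ρ s (ρ s - ρ s)) := hv
    rcases List.mem_cons.1 hv' with rfl | hv'
    · exact sub_self _
    · exact ih _ hv'

theorem NZ_clean (L : List Reg) (ρ : Reg → ℝ) : NZ (clean L) ρ := by
  refine NZ_of_op _ (fun I hI => ?_) _
  unfold clean at hI
  rw [List.mem_map] at hI
  obtain ⟨s, hs, rfl⟩ := hI
  exact fun h => Op.noConfusion h

end Pool.Agent.U780.RF
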