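import Pool.Agent.U780.RF.Sys

/-!
# The store after the program
-/

set_option autoImplicit false

namespace Pool.Agent.U780.RF

open Pool.Agent.H558R2 Pool.Agent.H622R3.SM Pool.Agent.U17.PN Finset

section start

variable {m n : ℕ} (A : Matrix (Fin m) (Fin n) ℝ) (b : Fin m → ℝ)

theorem start9 : start A b [9] = 0 := rfl

theorem start2 : start A b [2] = 1 := rfl

theorem start_lev (r : Reg) (h : lev r ≠ 0) : start A b r = 0 := by
  unfold start
  split
  · exact absurd rfl h
  · exact absurd rfl h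
  · exact absurd rfl h
  · rfl

theorem start_other {N : ℕ} (hm : m ≤ N) (hn : n ≤ N) (A' : Matrix (Fin N) (Fin N) ℝ)
    (b' : Fin N → ℝ) (r : Reg) (h0 : ∀ i j, i < N → j < N → r ≠ [0, i, j])
    (h1 : ∀ i, i < N → r ≠ [1, i]) : start A b r = start A' b' r := by
  unfold start
  split
  · rename_i i j
    rw [dif_neg, dif_neg]
    · rintro ⟨h2, h3⟩
      exact h0 i j h2 h3 rfl
    · rintro ⟨h2, h3⟩
      exact h0 i j (by omega) (by omega) rfl
  · rename_i i
    rw [dif_neg, dif_neg]
    · intro h2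
      exact h1 i h2 rfl
    · intro h2
      exact h1 i (by omega) rfl
  · rfl
  · rfl

/-- entries of `(-b, A)` -/
noncomputable def Ext (i j : ℕ) : ℝ :=
  if j = 0 then 0 - start A b [1, i] else 0 + start A b [0, i, j - 1]

/-- the store after the layers -/
noncomputable def FF : Reg → ℝ := fin (progs (layers m n)) (start A b)

variable {A b}

theorem FF_low (r : Reg) (h : lev r = 0) : FF A b r = start A b r :=
  (okAll m n).keep _ _ (by omega)

theorem FF_par {l : Lay} (hl : l ∈ layers m n) {I : Instr} (hI : I ∈ l.par) :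
    FF A b I.dst = I.op.eval (FF A b I.fst) (FF A b I.snd) :=
  (okAll m n).par _ l hl I hI

theorem FF_acc {l : Lay} (hl : l ∈ layers m n) {p : Reg × List Reg} (hp : p ∈ l.acc) :
    FF A b p.1 = (p.2.map (FF A b)).sum := by
  have h1 := (okAll m n).acc (start A b) l hl p hp
  have h2 := ((okAll m n).ge l hl).2 p hp
  rw [start_lev _ _ _ (by omega), zero_add] at h1
  exact h1

theorem FF_2 : FF A b [2] = 1 := by rw [FF_low _ rfl]; rfl

theorem FF_9 : FF A b [9] = 0 := by rw [FF_low _ rfl]; rfl

theorem FF_E {i j : ℕ} (hi : i < m) (hj : j < n + 1) : FF A b (rE i j) = Ext A b i j := by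
  have h1 := FF_par (A := A) (b := b) (l := ⟨par1 m n, []⟩) (by simp [layers])
    (I := iE i j) (by
      simp only [par1, List.mem_append, List.mem_map]
      exact Or.inl ⟨(i, j), List.mem_product.2 ⟨List.mem_range.2 hi, List.mem_range.2 hj⟩, rfl⟩)
  rw [iE_dst] at h1
  rw [h1]
  unfold iE Ext
  split_ifs
  · show FF A b [9] - FF A b [1, i] = _
    rw [FF_9, FF_low [1, i] rfl]
  · show FF A b [9] + FF A b [0, i, j - 1] = _
    rw [FF_9, FF_low [0, i, j - 1] rfl]

theorem FF_13 : FF A b [13] = 2 := by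
  have h1 := FF_par (A := A) (b := b) (l := ⟨par1 m n, []⟩) (by simp [layers])
    (I := ⟨Op.add, [13], [2], [2]⟩) (by simp [par1])
  have h2 : FF A b [13] = FF A b [2] + FF A b [2] := h1
  rw [h2, FF_2]
  norm_num

theorem FF_14 : FF A b [14] = 1 / 2 := by
  have h1 := FF_par (A := A) (b := b) (l := ⟨par2 m n, []⟩) (by simp [layers])
    (I := ⟨Op.div, [14], [2], [13]⟩) (by simp [par2])
  have h2 : FF A b [14] = FF A b [2] / FF A b [13] := h1
  rw [h2, FF_2, FF_13]

theorem FF_G {k l j : ℕ} (hk : k < m) (hl : l < m) (hj : j < n + 1) :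
    FF A b (rG k l j) = Ext A b k j * Ext A b l j := by
  have h1 := FF_par (A := A) (b := b) (l := ⟨par2 m n, []⟩) (by simp [layers])
    (I := ⟨Op.mul, rG k l j, rE k j, rE l j⟩) (by
      simp only [par2, List.mem_append, List.mem_map]
      exact Or.inl ⟨(k, l, j), by
        rw [List.mem_product, List.mem_product, List.mem_range, List.mem_range, List.mem_range]
        exact ⟨hk, hl, hj⟩, rfl⟩)
  have h2 : FF A b (rG k l j) = FF A b (rE k j) * FF A b (rE l j) := h1
  rw [h2, FF_E hk hj, FF_E hl hj]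

theorem FF_S {k l : ℕ} (hk : k < m) (hl : l < m) :
    FF A b (rS k l) = gg n (Ext A b) k l := by
  have h1 := FF_acc (A := A) (b := b) (l := ⟨[], acc3 m n⟩) (by simp [layers])
    (p := (rS k l, (List.range (n + 1)).map fun j => rG k l j)) (by
      simp only [acc3, List.mem_map]
      exact ⟨(k, l), by rw [List.mem_product, List.mem_range, List.mem_range]; exact ⟨hk, hl⟩,
        rfl⟩)
  dsimp only at h1
  rw [h1, List.map_map, sum_map_range]
  unfold gg
  refine Finset.sum_congr rfl fun j hj => ?_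
  exact FF_G hk hl (Finset.mem_range.1 hj)

theorem FF_ksrc {i : ℕ} (hi : i < m + 1) {c : Cod} (hc : c ∈ colsL m n) :
    FF A b (ksrc m i c) = kv m n (Ext A b) i c := by
  rw [mem_cols] at hc
  unfold ksrc kv
  split_ifs with h1 h2 h3 h4 h5 h6 h7 h8
  · exact FF_2
  · exact FF_9
  · exact FF_E (by omega) (by omega)
  · exact FF_2
  · exact FF_9
  · exact FF_2
  · exact FF_S (by omega) (by omega)
  · exact FF_9
  · exact FF_9

theorem FF_K {i : ℕ} (hi : i < m + 1) {c : Cod} (hc : c ∈ colsL m n) :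
    FF A b (rK i c) = Kf m n (Ext A b) i c := by
  have h1 := FF_par (A := A) (b := b) (l := ⟨par4 m n, []⟩) (by simp [layers])
    (I := iK m i c) (by
      simp only [par4, List.mem_map]
      exact ⟨(i, c), by rw [List.mem_product, List.mem_range]; exact ⟨hi, hc⟩, rfl⟩)
  rw [iK_dst, iK_fst, iK_snd, FF_9, FF_ksrc hi hc] at h1
  rw [h1]
  unfold iK Kf
  split_ifs <;> rfl

theorem FF_Z {i : ℕ} (hi : i < m + 1) {c : Cod} (hc : c ∈ colsL m n) :
    FF A b (rZ i c) = Kf m n (Ext A b) i c * Kf m n (Ext A b) i c := by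
  have h1 := FF_par (A := A) (b := b) (l := ⟨par5 m n, []⟩) (by simp [layers])
    (I := ⟨Op.mul, rZ i c, rK i c, rK i c⟩) (by
      simp only [par5, List.mem_map]
      exact ⟨(i, c), by rw [List.mem_product, List.mem_range]; exact ⟨hi, hc⟩, rfl⟩)
  have h2 : FF A b (rZ i c) = FF A b (rK i c) * FF A b (rK i c) := h1
  rw [h2, FF_K hi hc]

theorem FF_N {i : ℕ} (hi : i < m + 1) :
    FF A b (rN i) = nu (colsL m n).toFinset (Kf m n (Ext A b)) i := by
  have h1 := FF_acc (A := A) (b := b) (l := ⟨[], acc6 m n⟩) (by simp [layers])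
    (p := (rN i, (colsL m n).map fun c => rZ i c)) (by
      simp only [acc6, List.mem_map]
      exact ⟨i, by rw [List.mem_range]; exact hi, rfl⟩)
  dsimp only at h1
  rw [h1, List.map_map]
  unfold nu
  rw [sum_toFinset _ (nodup_cols m n)]
  congr 1
  refine List.map_congr_left fun c hc => ?_
  exact FF_Z hi hc

theorem FF_Q {i : ℕ} (hi : i < m + 1) {c : Cod} (hc : c ∈ colsL m n) :
    FF A b (rQ i c) = Kf m n (Ext A b) i c /
      nu (colsL m n).toFinset (Kf m n (Ext A b)) i := by
  have h1 := FF_par (A := A) (b := b) (l := ⟨par7 m n, []⟩) (by simp [layers])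
    (I := ⟨Op.div, rQ i c, rK i c, rN i⟩) (by
      simp only [par7, List.mem_map]
      exact ⟨(i, c), by rw [List.mem_product, List.mem_range]; exact ⟨hi, hc⟩, rfl⟩)
  have h2 : FF A b (rQ i c) = FF A b (rK i c) / FF A b (rN i) := h1
  rw [h2, FF_K hi hc, FF_N hi]

theorem FF_T {i : ℕ} (hi : i < m + 1) {c d : Cod} (hc : c ∈ colsL m n) (hd : d ∈ colsL m n) :
    FF A b (rT i c d) = Kf m n (Ext A b) i c * (Kf m n (Ext A b) i d /
      nu (colsL m n).toFinset (Kf m n (Ext A b)) i) := by
  have h1 := FF_par (A := A) (b := b) (l := ⟨par8 m n, []⟩) (by simp [layers])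
    (I := ⟨Op.mul, rT i c d, rK i c, rQ i d⟩) (by
      simp only [par8, List.mem_map]
      exact ⟨(i, c, d), List.mem_product.2 ⟨List.mem_range.2 hi,
        List.mem_product.2 ⟨hc, hd⟩⟩, rfl⟩)
  have h2 : FF A b (rT i c d) = FF A b (rK i c) * FF A b (rQ i d) := h1
  rw [h2, FF_K hi hc, FF_Q hi hd]

theorem FF_U {c d : Cod} (hc : c ∈ colsL m n) (hd : d ∈ colsL m n) :
    FF A b (rU c d) = QQ (range (m + 1)) (colsL m n).toFinset (Kf m n (Ext A b)) c d := by
  have h1 := FF_acc (A := A) (b := b) (l := ⟨[], acc9 m n⟩) (by simp [layers])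
    (p := (rU c d, (List.range (m + 1)).map fun i => rT i c d)) (by
      simp only [acc9, List.mem_map]
      exact ⟨(c, d), by rw [List.mem_product]; exact ⟨hc, hd⟩, rfl⟩)
  dsimp only at h1
  rw [h1, List.map_map, sum_map_range]
  unfold QQ
  refine Finset.sum_congr rfl fun j hj => ?_
  exact FF_T (Finset.mem_range.1 hj) hc hd

/-! ### The divisors are not zero -/

theorem nz_layers (hm : 1 ≤ m) : NZ (progs (layers m n)) (start A b) := by
  refine (okAll m n).nz _ ?_
  intro l hl I hI ho
  change FF A b I.snd ≠ 0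
  simp only [layers, List.mem_cons, List.not_mem_nil, or_false] at hl
  rcases hl with rfl | rfl | rfl | rfl | rfl | rfl | rfl | rfl | rfl
  · simp only [par1, List.mem_append, List.mem_map, List.mem_singleton] at hI
    rcases hI with ⟨p, -, rfl⟩ | rfl
    · exact absurd ho (iE_op _ _)
    · exact absurd ho (fun h => Op.noConfusion h)
  · simp only [par2, List.mem_append, List.mem_map, List.mem_singleton] at hI
    rcases hI with ⟨p, -, rfl⟩ | rfl
    · exact absurd ho (fun h => Op.noConfusion h)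
    · show FF A b [13] ≠ 0
      rw [FF_13]
      norm_num
  · exact absurd hI (by simp)
  · simp only [par4, List.mem_map] at hI
    obtain ⟨p, -, rfl⟩ := hI
    exact absurd ho (iK_op _ _ _)
  · simp only [par5, List.mem_map] at hI
    obtain ⟨p, -, rfl⟩ := hI
    exact absurd ho (fun h => Op.noConfusion h)
  · exact absurd hI (by simp)
  · simp only [par7, List.mem_map] at hI
    obtain ⟨p, hp, rfl⟩ := hI
    rw [List.mem_product, List.mem_range] at hp
    show FF A b (rN p.1) ≠ 0
    rw [FF_N hp.1]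
    exact (orthK hm).pos _ (Finset.mem_range.2 hp.1)
  · simp only [par8, List.mem_map] at hI
    obtain ⟨p, -, rfl⟩ := hI
    exact absurd ho (fun h => Op.noConfusion h)
  · exact absurd hI (by simp)

/-! ### The output -/

/-- levels for the output -/
def lev' : Reg → ℕ
  | 0 :: _ => 1
  | 1 :: _ => 1
  | _ => 0

theorem zipIdx_eq {α : Type} {l : List α} {z y : α × ℕ} (hz : z ∈ l.zipIdx) (hy : y ∈ l.zipIdx)
    (h : z.2 = y.2) : z = y := by
  rw [List.mem_zipIdx_iff_getElem?] at hz hy
  rw [h, hy] at hz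
  exact Prod.ext (Option.some.inj hz).symm h

theorem par_out (m n : ℕ) : Par (outL m n) := by
  have hd : ∀ I ∈ outL m n, lev' I.dst = 1 := by
    intro I hI
    simp only [outL, List.mem_append, List.mem_map] at hI
    rcases hI with ⟨p, -, rfl⟩ | ⟨p, -, rfl⟩ <;> rfl
  have hf : ∀ I ∈ outL m n, lev' I.fst = 0 := by
    intro I hI
    simp only [outL, List.mem_append, List.mem_map] at hI
    rcases hI with ⟨p, -, rfl⟩ | ⟨p, -, rfl⟩
    · unfold iM
      dsimp only
      split_ifs <;> rfl
    · rfl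
  have hs : ∀ I ∈ outL m n, lev' I.snd = 0 := by
    intro I hI
    simp only [outL, List.mem_append, List.mem_map] at hI
    rcases hI with ⟨p, -, rfl⟩ | ⟨p, -, rfl⟩
    · unfold iM
      dsimp only
      split_ifs <;> rfl
    · unfold iR
      dsimp only
      split_ifs <;> rfl
  refine ⟨fun I hI J hJ h => ?_, fun I hI J hJ h => ?_, fun I hI J hJ h => ?_⟩
  · have h1 := hd I hI
    rw [h, hf J hJ] at h1
    omega
  · have h1 := hd I hI
    rw [h, hs J hJ] at h1
    omega
  · simp only [outL, List.mem_append, List.mem_map] at hI hJ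
    rcases hI with ⟨p, hp, rfl⟩ | ⟨p, hp, rfl⟩ <;> rcases hJ with ⟨q, hq, rfl⟩ | ⟨q, hq, rfl⟩
    · rw [List.mem_product] at hp hq
      simp only [iM, List.cons.injEq, and_true, true_and] at h
      rw [zipIdx_eq hp.1 hq.1 h.1, zipIdx_eq hp.2 hq.2 h.2]
    · simp [iM, iR] at h
    · simp [iM, iR] at h
    · simp only [iR, List.cons.injEq, and_true, true_and] at h
      rw [zipIdx_eq hp hq h]

theorem out_op (m n : ℕ) : ∀ I ∈ outL m n, I.op ≠ Op.div := by
  intro I hI
  simp only [outL, List.mem_append, List.mem_map] at hI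
  rcases hI with ⟨p, -, rfl⟩ | ⟨p, -, rfl⟩ <;> exact fun h => Op.noConfusion h

variable (A b)

/-- the matrix computed -/
noncomputable def mM : Matrix (Fin (idxL m n).length) (Fin (idxL m n).length) ℝ := fun p q =>
  MM (range (m + 1)) (colsL m n).toFinset (Kf m n (Ext A b)) (idxL m n)[p] (idxL m n)[q]

variable (m n) in
/-- the right-hand side -/
noncomputable def mR : Fin (idxL m n).length → ℝ := fun p => if (p : ℕ) = 0 then 1 else 0

/-- the store after the output -/
noncomputable def GG : Reg → ℝ := fin (outL m n) (FF A b)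

variable {A b}

theorem mem_idx {z : ℕ × Cod} (hz : z ∈ idxL m n) : z.1 < 2 ∧ z.2 ∈ colsL m n := by
  unfold idxL at hz
  rw [List.mem_product, List.mem_range] at hz
  exact hz

theorem GG_M {i j : ℕ} (hi : i < (idxL m n).length) (hj : j < (idxL m n).length) :
    GG A b [0, i, j] = mM A b ⟨i, hi⟩ ⟨j, hj⟩ := by
  have hz : ((idxL m n)[i], i) ∈ (idxL m n).zipIdx := by
    rw [List.mem_zipIdx_iff_getElem?]
    exact List.getElem?_eq_getElem hi
  have hy : ((idxL m n)[j], j) ∈ (idxL m n).zipIdx := by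
    rw [List.mem_zipIdx_iff_getElem?]
    exact List.getElem?_eq_getElem hj
  have h1 := fin_par (outL m n) (par_out m n) (FF A b) (iM ((idxL m n)[i], i) ((idxL m n)[j], j))
    (by
      simp only [outL, List.mem_append, List.mem_map]
      exact Or.inl ⟨(_, _), by rw [List.mem_product]; exact ⟨hz, hy⟩, rfl⟩)
  refine h1.trans ?_
  have hi' := mem_idx (List.getElem_mem hi)
  have hj' := mem_idx (List.getElem_mem hj)
  show FF A b (if (idxL m n)[i].2 = (idxL m n)[j].2 then [14] else [9]) -
    FF A b (if (idxL m n)[i].1 = (idxL m n)[j].1 then [9] else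
      rU (idxL m n)[i].2 (idxL m n)[j].2) =
    MM (range (m + 1)) (colsL m n).toFinset (Kf m n (Ext A b)) (idxL m n)[i] (idxL m n)[j]
  unfold MM DD
  congr 1
  · split_ifs
    · exact FF_14
    · exact FF_9
  · split_ifs
    · exact FF_9
    · exact FF_U hi'.2 hj'.2

theorem GG_R {i : ℕ} (hi : i < (idxL m n).length) :
    GG A b [1, i] = mR m n ⟨i, hi⟩ := by
  have hz : ((idxL m n)[i], i) ∈ (idxL m n).zipIdx := by
    rw [List.mem_zipIdx_iff_getElem?]
    exact List.getElem?_eq_getElem hi
  have h1 := fin_par (outL m n) (par_out m n) (FF A b) (iR ((idxL m n)[i], i))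
    (by
      simp only [outL, List.mem_append, List.mem_map]
      exact Or.inr ⟨_, hz, rfl⟩)
  refine h1.trans ?_
  show FF A b [9] + FF A b (if i = 0 then [2] else [9]) = if i = 0 then 1 else 0
  split_ifs
  · rw [FF_9, FF_2, zero_add]
  · rw [FF_9, zero_add]

theorem GG_keep {r : Reg} (h0 : ∀ i j, i < (idxL m n).length → j < (idxL m n).length →
    r ≠ [0, i, j]) (h1 : ∀ i, i < (idxL m n).length → r ≠ [1, i]) : GG A b r = FF A b r := by
  refine fin_of_not _ _ (fun I hI => ?_) _
  simp only [outL, List.mem_append, List.mem_map] at hI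
  rcases hI with ⟨p, hp, rfl⟩ | ⟨p, hp, rfl⟩
  · rw [List.mem_product] at hp
    exact (h0 _ _ (List.snd_lt_of_mem_zipIdx hp.1) (List.snd_lt_of_mem_zipIdx hp.2)).symm
  · exact (h1 _ (List.snd_lt_of_mem_zipIdx hp)).symm

theorem mem_progs_dst {r : Reg} (hr : r ∈ (progs (layers m n)).map Instr.dst) : lev r ≠ 0 := by
  rw [List.mem_map] at hr
  obtain ⟨I, hI, rfl⟩ := hr
  unfold progs at hI
  rw [List.mem_flatMap] at hI
  obtain ⟨l, hl, hI⟩ := hI
  obtain ⟨g1, g2⟩ := (okAll m n).ge l hl
  unfold Lay.prog at hI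
  rw [List.mem_append] at hI
  rcases hI with hI | hI
  · have := g1 I hI
    omega
  · unfold accProg at hI
    rw [List.mem_flatMap] at hI
    obtain ⟨p, hp, hI⟩ := hI
    rw [List.mem_map] at hI
    obtain ⟨s, -, rfl⟩ := hI
    have := g2 p hp
    show lev p.1 ≠ 0
    omega

theorem FF_not {r : Reg} (hr : r ∉ (progs (layers m n)).map Instr.dst) :
    FF A b r = start A b r := by
  refine fin_of_not _ _ (fun I hI => ?_) _
  rintro rfl
  exact hr (List.mem_map_of_mem hI)

theorem length_cols (m n : ℕ) : (colsL m n).length = 2 * (n + 1) + (m + 2 * (m * m)) := by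
  unfold colsL
  simp [List.length_product]

theorem length_idx (m n : ℕ) :
    (idxL m n).length = 2 * (2 * (n + 1) + (m + 2 * (m * m))) := by
  unfold idxL
  rw [List.length_product, length_cols, List.length_range]

theorem fin_prog : fin (prog m n) (start A b) = start (mM A b) (mR m n) := by
  unfold prog
  rw [fin_append, fin_append]
  change fin (clean ((progs (layers m n)).map Instr.dst)) (GG A b) = _
  funext r
  by_cases hr : r ∈ (progs (layers m n)).map Instr.dst
  · rw [fin_clean _ _ _ (Or.inl hr), start_lev _ _ _ (mem_progs_dst hr)]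
  · rw [fin_clean_of_not _ _ _ hr]
    by_cases h0 : ∃ i j, i < (idxL m n).length ∧ j < (idxL m n).length ∧ r = [0, i, j]
    · obtain ⟨i, j, hi, hj, rfl⟩ := h0
      rw [GG_M hi hj]
      show _ = if h : i < (idxL m n).length ∧ j < (idxL m n).length then
        mM A b ⟨i, h.1⟩ ⟨j, h.2⟩ else 0
      rw [dif_pos ⟨hi, hj⟩]
    · by_cases h1 : ∃ i, i < (idxL m n).length ∧ r = [1, i]
      · obtain ⟨i, hi, rfl⟩ := h1
        rw [GG_R hi]
        show _ = if h : i < (idxL m n).length then mR m n ⟨i, h⟩ else 0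
        rw [dif_pos hi]
      · have h0' : ∀ i j, i < (idxL m n).length → j < (idxL m n).length → r ≠ [0, i, j] :=
          fun i j hi hj he => h0 ⟨i, j, hi, hj, he⟩
        have h1' : ∀ i, i < (idxL m n).length → r ≠ [1, i] := fun i hi he => h1 ⟨i, hi, he⟩
        rw [GG_keep h0' h1', FF_not hr]
        refine start_other _ _ ?_ ?_ _ _ _ h0' h1'
        · rw [length_idx]; omega
        · rw [length_idx]; omega

theorem nz_prog (hm : 1 ≤ m) : NZ (prog m n) (start A b) := by
  unfold prog
  rw [NZ_append, NZ_append]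
  exact ⟨nz_layers hm, NZ_of_op _ (out_op m n) _, NZ_clean _ _⟩

end start

end Pool.Agent.U780.RF
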