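import Pool.Agent.U780.RF.Prog
import Pool.Agent.U780.RF.Proj

/-!
# The matrix with orthogonal rows
-/

set_option autoImplicit false

namespace Pool.Agent.U780.RF

open Finset

/-! ### Sums over the columns -/

theorem sum_map_range (k : ℕ) (f : ℕ → ℝ) : ((List.range k).map f).sum = ∑ i ∈ range k, f i := by
  induction k with
  | zero => simp
  | succ k ih => rw [List.range_succ, List.map_append, List.sum_append, ih,
      Finset.sum_range_succ]; simp

theorem sum_map_product {α β : Type} (l : List α) (l' : List β) (f : α × β → ℝ) :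
    ((l ×ˢ l').map f).sum = (l.map fun a => (l'.map fun b => f (a, b)).sum).sum := by
  induction l with
  | nil => simp
  | cons a l ih =>
    rw [List.product_cons, List.map_append, List.sum_append, ih, List.map_cons, List.sum_cons,
      List.map_map]
    rfl

theorem sum_toFinset {α : Type} [DecidableEq α] (l : List α) (hl : l.Nodup) (f : α → ℝ) :
    ∑ c ∈ l.toFinset, f c = (l.map f).sum := by
  rw [List.sum_toFinset _ hl]

theorem sum_cols (m n : ℕ) (f : Cod → ℝ) : ∑ c ∈ (colsL m n).toFinset, f c =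
    ∑ j ∈ range (n + 1), f (0, j, 0) + ∑ j ∈ range (n + 1), f (1, j, 0) +
    (∑ k ∈ range m, f (2, k, 0) + (∑ k ∈ range m, ∑ l ∈ range m, f (3, k, l) +
      ∑ k ∈ range m, ∑ l ∈ range m, f (4, k, l))) := by
  rw [sum_toFinset _ (nodup_cols m n)]
  unfold colsL
  rw [List.map_append, List.sum_append, List.map_append, List.sum_append, List.map_map,
    List.map_map, List.map_map, sum_map_product, sum_map_product]
  simp only [Function.comp, sum_map_range, sum_map_product, Finset.sum_range_succ,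
    Finset.sum_range_zero, zero_add]

theorem mem_cols {m n : ℕ} {c : Cod} : c ∈ colsL m n ↔
    (c.1 ≤ 1 ∧ c.2.1 < n + 1 ∧ c.2.2 = 0) ∨ (c.1 = 2 ∧ c.2.1 < m ∧ c.2.2 = 0) ∨
      (3 ≤ c.1 ∧ c.1 ≤ 4 ∧ c.2.1 < m ∧ c.2.2 < m) := by
  obtain ⟨t, j, l⟩ := c
  unfold colsL
  simp only [List.mem_append, List.mem_map, List.mem_product, List.mem_range, Prod.mk.injEq,
    Prod.exists]
  constructor
  · rintro (⟨x, y, h1, rfl, rfl, rfl⟩ | ⟨k, h1, rfl, rfl, rfl⟩ | ⟨x, y, z, h1, rfl, rfl, rfl⟩)
    · exact Or.inl ⟨by omega, h1.2, rfl⟩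
    · exact Or.inr (Or.inl ⟨rfl, h1, rfl⟩)
    · exact Or.inr (Or.inr ⟨by omega, by omega, h1.2.1, h1.2.2⟩)
  · rintro (⟨h1, h2, h3⟩ | ⟨h1, h2, h3⟩ | ⟨h1, h2, h3, h4⟩)
    · exact Or.inl ⟨t, j, ⟨by omega, h2⟩, rfl, rfl, h3.symm⟩
    · exact Or.inr (Or.inl ⟨j, h2, h1.symm, rfl, h3.symm⟩)
    · exact Or.inr (Or.inr ⟨t - 3, j, l, ⟨by omega, h3, h4⟩, by omega, rfl, rfl⟩)

/-! ### The entries -/

section

variable (m n : ℕ) (E : ℕ → ℕ → ℝ)

/-- scalar products of the rows -/
noncomputable def gg (k l : ℕ) : ℝ := ∑ j ∈ range (n + 1), E k j * E l j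

/-- absolute values of the entries -/
noncomputable def kv (i : ℕ) (c : Cod) : ℝ :=
  if i = m then (if 3 ≤ c.1 then 1 else 0)
  else if c.1 ≤ 1 then E i c.2.1
  else if c.1 = 2 then (if i = c.2.1 then 1 else 0)
  else if c.2.1 ≤ c.2.2 then
    (if i = c.2.1 then 1 else if i = c.2.2 then gg n E c.2.1 c.2.2 else 0)
  else 0

/-- the entries -/
noncomputable def Kf (i : ℕ) (c : Cod) : ℝ :=
  if kneg m i c = true then 0 - kv m n E i c else 0 + kv m n E i c

/-- the additional columns -/
noncomputable def Dk (i k l : ℕ) : ℝ :=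
  if k ≤ l then (if i = k then 1 else if i = l then - gg n E k l else 0) else 0

variable {m n E}

theorem Kf_0 {i : ℕ} (hi : i ≠ m) (j : ℕ) : Kf m n E i (0, j, 0) = E i j := by
  simp [Kf, kv, kneg, hi]

theorem Kf_1 {i : ℕ} (hi : i ≠ m) (j : ℕ) :
    Kf m n E i (1, j, 0) = if j = 0 then E i j else - E i j := by
  by_cases h : j = 0 <;> simp [Kf, kv, kneg, hi, h]

theorem Kf_2 {i : ℕ} (hi : i ≠ m) (k : ℕ) :
    Kf m n E i (2, k, 0) = if i = k then -1 else 0 := by
  by_cases h : i = k
  · subst h; simp [Kf, kv, kneg, hi]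
  · simp [Kf, kv, kneg, hi, h]

theorem Kf_3 {i : ℕ} (hi : i ≠ m) (k l : ℕ) :
    Kf m n E i (3, k, l) = Dk n E i k l := by
  unfold Dk
  by_cases h0 : k ≤ l
  · by_cases h1 : i = k
    · subst h1; simp [Kf, kv, kneg, hi, h0]
    · by_cases h2 : i = l
      · subst h2; simp [Kf, kv, kneg, hi, h0, h1]
      · simp [Kf, kv, kneg, hi, h0, h1, h2]
  · simp [Kf, kv, kneg, hi, h0]

theorem Kf_4 {i : ℕ} (hi : i ≠ m) (k l : ℕ) :
    Kf m n E i (4, k, l) = - Dk n E i k l := by
  unfold Dk
  by_cases h0 : k ≤ l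
  · by_cases h1 : i = k
    · subst h1; simp [Kf, kv, kneg, hi, h0]
    · by_cases h2 : i = l
      · subst h2; simp [Kf, kv, kneg, hi, h0, h1]
      · simp [Kf, kv, kneg, hi, h0, h1, h2]
  · simp [Kf, kv, kneg, hi, h0]

theorem Kf_m0 (x j : ℕ) (hx : x ≤ 2) : Kf m n E m (x, j, 0) = 0 := by
  have : ¬ 3 ≤ x := by omega
  simp [Kf, kv, kneg, this]

theorem Kf_m3 (k l : ℕ) : Kf m n E m (3, k, l) = 1 := by
  simp [Kf, kv, kneg]

theorem Kf_m4 (k l : ℕ) : Kf m n E m (4, k, l) = 1 := by
  simp [Kf, kv, kneg]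

theorem gg_symm (k l : ℕ) : gg n E k l = gg n E l k := by
  unfold gg
  exact Finset.sum_congr rfl fun j _ => by ring

theorem sum_Dk {i i' : ℕ} (hi' : i' < m) (hlt : i < i') :
    ∑ k ∈ range m, ∑ l ∈ range m, Dk n E i k l * Dk n E i' k l = - gg n E i i' := by
  have h1 : ∀ k l, Dk n E i k l * Dk n E i' k l =
      if l = i' then (if k = i then - gg n E i i' else 0) else 0 := by
    intro k l
    unfold Dk
    by_cases h0 : k ≤ l
    · rw [if_pos h0, if_pos h0]
      by_cases h1 : i = k
      · subst h1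
        rw [if_pos rfl, if_neg (by omega : ¬ i' = i), one_mul]
        by_cases h2 : i' = l
        · subst h2; simp
        · rw [if_neg h2, if_neg (fun h => h2 h.symm)]
      · rw [if_neg h1]
        by_cases h2 : i = l
        · subst h2
          rw [if_pos rfl, if_neg (by omega : ¬ i' = k), if_neg (by omega : ¬ i' = i), mul_zero,
            if_neg (by omega)]
        · rw [if_neg h2, zero_mul, if_neg (fun h : k = i => h1 h.symm), ite_self]
    · rw [if_neg h0, zero_mul]
      split_ifs with h2 h3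
      · omega
      · rfl
      · rfl
  simp only [h1]
  have h2 : ∀ k ∈ range m, ∑ l ∈ range m, (if l = i' then (if k = i then - gg n E i i' else 0)
      else 0) = if k = i then - gg n E i i' else 0 := by
    intro k _
    rw [Finset.sum_ite_eq', if_pos (Finset.mem_range.2 hi')]
  rw [Finset.sum_congr rfl h2, Finset.sum_ite_eq', if_pos (Finset.mem_range.2 (by omega))]

theorem orth_lt {i i' : ℕ} (hi' : i' < m) (hlt : i < i') :
    ∑ c ∈ (colsL m n).toFinset, Kf m n E i c * Kf m n E i' c = 0 := by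
  have hi : i ≠ m := by omega
  have hi'' : i' ≠ m := by omega
  rw [sum_cols]
  simp only [Kf_0 hi, Kf_0 hi'', Kf_1 hi, Kf_1 hi'', Kf_2 hi, Kf_2 hi'', Kf_3 hi, Kf_3 hi'',
    Kf_4 hi, Kf_4 hi'', neg_mul_neg]
  have h1 : ∑ j ∈ range (n + 1), (if j = 0 then E i j else -E i j) *
      (if j = 0 then E i' j else -E i' j) = gg n E i i' := by
    unfold gg
    refine Finset.sum_congr rfl fun j _ => ?_
    split_ifs <;> ring
  have h2 : ∑ k ∈ range m, (if i = k then (-1 : ℝ) else 0) * (if i' = k then -1 else 0) = 0 := by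
    refine Finset.sum_eq_zero fun k _ => ?_
    by_cases h : i = k
    · rw [if_neg (by omega : ¬ i' = k), mul_zero]
    · rw [if_neg h, zero_mul]
  rw [h1, h2, sum_Dk hi' hlt]
  unfold gg
  ring

theorem orth_m {i : ℕ} (hi : i < m) :
    ∑ c ∈ (colsL m n).toFinset, Kf m n E i c * Kf m n E m c = 0 := by
  have hi' : i ≠ m := by omega
  rw [sum_cols]
  simp only [Kf_m0 0 _ (by norm_num), Kf_m0 1 _ (by norm_num), Kf_m0 2 _ (by norm_num), Kf_m3,
    Kf_m4, Kf_3 hi', Kf_4 hi', mul_zero, mul_one, Finset.sum_const_zero, Finset.sum_neg_distrib]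
  ring

theorem orthK (hm : 1 ≤ m) : Orth (range (m + 1)) (colsL m n).toFinset (Kf m n E) := by
  constructor
  · intro i hi j hj hne
    rw [Finset.mem_range] at hi hj
    rcases lt_or_gt_of_ne hne with h | h
    · by_cases hjm : j = m
      · subst hjm; exact orth_m h
      · exact orth_lt (by omega) h
    · have : ∑ c ∈ (colsL m n).toFinset, Kf m n E j c * Kf m n E i c = 0 := by
        by_cases him : i = m
        · subst him; exact orth_m h
        · exact orth_lt (by omega) h
      rw [← this]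
      exact Finset.sum_congr rfl fun c _ => mul_comm _ _
  · intro i hi
    rw [Finset.mem_range] at hi
    have hpos : 0 < nu (colsL m n).toFinset (Kf m n E) i := by
      unfold nu
      by_cases him : i = m
      · subst him
        refine Finset.sum_pos' (fun c _ => mul_self_nonneg _) ⟨(3, 0, 0), ?_, ?_⟩
        · rw [List.mem_toFinset, mem_cols]
          exact Or.inr (Or.inr ⟨le_refl _, by norm_num, hm, hm⟩)
        · rw [Kf_m3]; norm_num
      · refine Finset.sum_pos' (fun c _ => mul_self_nonneg _) ⟨(2, i, 0), ?_, ?_⟩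
        · rw [List.mem_toFinset, mem_cols]
          exact Or.inr (Or.inl ⟨rfl, by dsimp only; omega, rfl⟩)
        · rw [Kf_2 him, if_pos rfl]; norm_num
    exact hpos.ne'

/-! ### The kernel -/

theorem kernel_iff (al : ℕ → ℕ → ℝ) (be : ℕ → ℝ) (h0 : ∀ i, E i 0 = - be i)
    (h1 : ∀ i j, E i (j + 1) = al i j) :
    (∃ w : Cod → ℝ, (∀ c ∈ (colsL m n).toFinset, 0 ≤ w c) ∧ 1 ≤ w (0, 0, 0) ∧
      ∀ i ∈ range (m + 1), ∑ c ∈ (colsL m n).toFinset, Kf m n E i c * w c = 0) ↔
    ∃ x : ℕ → ℝ, ∀ i < m, be i ≤ ∑ j ∈ range n, al i j * x j := by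
  constructor
  · rintro ⟨w, hw, hw0, hK⟩
    have hw' : ∀ c, c ∈ colsL m n → 0 ≤ w c := fun c hc => hw c (List.mem_toFinset.2 hc)
    have hz : (∀ k < m, ∀ l < m, w (3, k, l) = 0) ∧ ∀ k < m, ∀ l < m, w (4, k, l) = 0 := by
      have h2 := hK m (by simp)
      rw [sum_cols] at h2
      simp only [Kf_m0 0 _ (by norm_num : 0 ≤ 2), Kf_m0 1 _ (by norm_num : 1 ≤ 2),
        Kf_m0 2 _ (le_refl 2), Kf_m3, Kf_m4, zero_mul, one_mul,
        Finset.sum_const_zero, zero_add] at h2
      have n3 : ∀ k < m, ∀ l < m, 0 ≤ w (3, k, l) := fun k hk l hl =>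
        hw' _ (mem_cols.2 (Or.inr (Or.inr ⟨le_refl _, by norm_num, hk, hl⟩)))
      have n4 : ∀ k < m, ∀ l < m, 0 ≤ w (4, k, l) := fun k hk l hl =>
        hw' _ (mem_cols.2 (Or.inr (Or.inr ⟨by norm_num, le_refl _, hk, hl⟩)))
      have s3 : 0 ≤ ∑ k ∈ range m, ∑ l ∈ range m, w (3, k, l) :=
        Finset.sum_nonneg fun k hk => Finset.sum_nonneg fun l hl =>
          n3 k (Finset.mem_range.1 hk) l (Finset.mem_range.1 hl)
      have s4 : 0 ≤ ∑ k ∈ range m, ∑ l ∈ range m, w (4, k, l) :=
        Finset.sum_nonneg fun k hk => Finset.sum_nonneg fun l hl =>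
          n4 k (Finset.mem_range.1 hk) l (Finset.mem_range.1 hl)
      have e3 : ∑ k ∈ range m, ∑ l ∈ range m, w (3, k, l) = 0 := by linarith
      have e4 : ∑ k ∈ range m, ∑ l ∈ range m, w (4, k, l) = 0 := by linarith
      constructor
      · intro k hk l hl
        have h3 := (Finset.sum_eq_zero_iff_of_nonneg (fun k hk => Finset.sum_nonneg fun l hl =>
          n3 k (Finset.mem_range.1 hk) l (Finset.mem_range.1 hl))).1 e3 k (Finset.mem_range.2 hk)
        exact (Finset.sum_eq_zero_iff_of_nonneg (fun l hl =>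
          n3 k hk l (Finset.mem_range.1 hl))).1 h3 l (Finset.mem_range.2 hl)
      · intro k hk l hl
        have h3 := (Finset.sum_eq_zero_iff_of_nonneg (fun k hk => Finset.sum_nonneg fun l hl =>
          n4 k (Finset.mem_range.1 hk) l (Finset.mem_range.1 hl))).1 e4 k (Finset.mem_range.2 hk)
        exact (Finset.sum_eq_zero_iff_of_nonneg (fun l hl =>
          n4 k hk l (Finset.mem_range.1 hl))).1 h3 l (Finset.mem_range.2 hl)
    have hτ : 0 < w (0, 0, 0) + w (1, 0, 0) := by
      have := hw' (1, 0, 0) (mem_cols.2 (Or.inl ⟨le_refl _, by dsimp only; omega, rfl⟩))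
      linarith
    refine ⟨fun j => (w (0, j + 1, 0) - w (1, j + 1, 0)) / (w (0, 0, 0) + w (1, 0, 0)),
      fun i hi => ?_⟩
    have him : i ≠ m := by omega
    have h2 := hK i (Finset.mem_range.2 (by omega))
    rw [sum_cols] at h2
    simp only [Kf_0 him, Kf_1 him, Kf_2 him, Kf_3 him, Kf_4 him] at h2
    have z3 : ∑ k ∈ range m, ∑ l ∈ range m, Dk n E i k l * w (3, k, l) = 0 :=
      Finset.sum_eq_zero fun k hk => Finset.sum_eq_zero fun l hl => by
        rw [hz.1 k (Finset.mem_range.1 hk) l (Finset.mem_range.1 hl), mul_zero]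
    have z4 : ∑ k ∈ range m, ∑ l ∈ range m, - Dk n E i k l * w (4, k, l) = 0 :=
      Finset.sum_eq_zero fun k hk => Finset.sum_eq_zero fun l hl => by
        rw [hz.2 k (Finset.mem_range.1 hk) l (Finset.mem_range.1 hl), mul_zero]
    have z2 : ∑ k ∈ range m, (if i = k then (-1 : ℝ) else 0) * w (2, k, 0) = - w (2, i, 0) := by
      rw [Finset.sum_eq_single i]
      · rw [if_pos rfl]; ring
      · intro k _ hk
        rw [if_neg (fun h => hk h.symm), zero_mul]
      · intro h
        exact absurd (Finset.mem_range.2 hi) h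
    have w2 : 0 ≤ w (2, i, 0) := hw' _ (mem_cols.2 (Or.inr (Or.inl ⟨rfl, hi, rfl⟩)))
    rw [z3, z4, z2, Finset.sum_range_succ', Finset.sum_range_succ', h0] at h2
    simp only [h1, if_pos, Nat.succ_ne_zero, if_false, if_true] at h2
    have h3 : ∑ j ∈ range n, al i j * ((w (0, j + 1, 0) - w (1, j + 1, 0)) /
        (w (0, 0, 0) + w (1, 0, 0))) =
        (∑ j ∈ range n, al i j * w (0, j + 1, 0) + ∑ j ∈ range n, - al i j * w (1, j + 1, 0)) /
        (w (0, 0, 0) + w (1, 0, 0)) := by
      rw [← Finset.sum_add_distrib, Finset.sum_div]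
      exact Finset.sum_congr rfl fun j _ => by ring
    rw [h3, le_div_iff₀ hτ]
    linarith
  · rintro ⟨x, hx⟩
    refine ⟨fun c => if c.1 = 0 then (if c.2.1 = 0 then 1 else max (x (c.2.1 - 1)) 0)
      else if c.1 = 1 then (if c.2.1 = 0 then 0 else max (- x (c.2.1 - 1)) 0)
      else if c.1 = 2 then ∑ j ∈ range n, al c.2.1 j * x j - be c.2.1 else 0, ?_, ?_, ?_⟩
    · intro c hc
      rw [List.mem_toFinset, mem_cols] at hc
      dsimp only
      split_ifs with h2 h3 h4 h5 h6
      · norm_num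
      · exact le_max_right _ _
      · exact le_refl _
      · exact le_max_right _ _
      · have h7 : c.2.1 < m := by omega
        have := hx _ h7
        linarith
      · exact le_refl _
    · simp
    · intro i hi
      rw [Finset.mem_range] at hi
      rw [sum_cols]
      have e21 : ¬ (2 : ℕ) = 1 := by norm_num
      have e20 : ¬ (2 : ℕ) = 0 := by norm_num
      have e10 : ¬ (1 : ℕ) = 0 := by norm_num
      have e30 : ¬ (3 : ℕ) = 0 := by norm_num
      have e31 : ¬ (3 : ℕ) = 1 := by norm_num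
      have e32 : ¬ (3 : ℕ) = 2 := by norm_num
      have e40 : ¬ (4 : ℕ) = 0 := by norm_num
      have e41 : ¬ (4 : ℕ) = 1 := by norm_num
      have e42 : ¬ (4 : ℕ) = 2 := by norm_num
      by_cases him : i = m
      · subst him
        simp only [Kf_m0 0 _ (by norm_num : 0 ≤ 2), Kf_m0 1 _ (by norm_num : 1 ≤ 2),
          Kf_m0 2 _ (le_refl 2), zero_mul, Finset.sum_const_zero, zero_add, if_neg e30,
          if_neg e31, if_neg e32, if_neg e40, if_neg e41, if_neg e42, mul_zero]
      · simp only [Kf_0 him, Kf_1 him, Kf_2 him, if_neg e30,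
          if_neg e31, if_neg e32, if_neg e40, if_neg e41, if_neg e42, mul_zero,
          Finset.sum_const_zero, add_zero, if_true, if_neg e10, if_neg e20, if_neg e21]
        rw [Finset.sum_range_succ', Finset.sum_range_succ']
        simp only [Nat.succ_ne_zero, if_false, if_true, h0, h1, Nat.add_sub_cancel, mul_one,
          mul_zero, add_zero]
        have z2 : ∑ k ∈ range m, (if i = k then (-1 : ℝ) else 0) *
            (∑ j ∈ range n, al k j * x j - be k) = - (∑ j ∈ range n, al i j * x j - be i) := by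
          rw [Finset.sum_eq_single i]
          · rw [if_pos rfl]; ring
          · intro k _ hk
            rw [if_neg (fun h => hk h.symm), zero_mul]
          · intro h
            exact absurd (Finset.mem_range.2 (by omega)) h
        rw [z2]
        have h3 : ∑ j ∈ range n, al i j * max (x j) 0 + ∑ j ∈ range n, - al i j * max (-x j) 0 =
            ∑ j ∈ range n, al i j * x j := by
          rw [← Finset.sum_add_distrib]
          refine Finset.sum_congr rfl fun j _ => ?_
          have : max (x j) 0 - max (-x j) 0 = x j := by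
            rcases le_total 0 (x j) with h | h
            · rw [max_eq_left h, max_eq_right (by linarith)]; ring
            · rw [max_eq_right h, max_eq_left (by linarith)]; ring
          calc al i j * max (x j) 0 + - al i j * max (-x j) 0 =
              al i j * (max (x j) 0 - max (-x j) 0) := by ring
            _ = _ := by rw [this]
        linarith

end

end Pool.Agent.U780.RF
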